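import Pool.Agent.Lib.MP_9f84a9_co.Out

/-!
# MP_9f84a9_co, section 2 (module E): the extremal configuration.  Definitions
-/

set_option autoImplicit false

namespace Pool.Agent.Lib.MP_9f84a9_co

open Finset

/-- normalised data: positions of norm at most `P`, barycentric coordinates in `[0,1]` -/
def Box (N k : ℕ) (P : ℝ) : Set (Dat N k) :=
  {y | (∀ v, ‖y.1 v‖ ≤ P) ∧ ∀ i v, 0 ≤ y.2 i v ∧ y.2 i v ≤ 1}

/-- the symbolic types that occur; node names `Fin Cl.card` -/
def TT (N : ℕ) (Cl : Finset ℕ) : Set (SP N Cl.card) :=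
  {t | t.D.ok ∧ (∀ v, t.lab v ∈ Cl) ∧
    t.T.1.leaves.length + t.T.2.leaves.length ≤ Cl.card}

/-- the data of the admissible configurations of type `t` -/
def YY {N k m : ℕ} (Cl : Finset ℕ) (P : ℝ) (t : Fin m → SP N k) : Set (Fin m → Dat N k) :=
  {y | (∀ j, y j ∈ Box N k P) ∧ InD Cl P (mk t y)}

/-- the five values -/
structure SameVal {N : ℕ} (R1 : ℝ) (S S' : Cfg N) : Prop where
  L : Lc S = Lc S'
  m : mu S = mu S'
  F : Phi R1 S = Phi R1 S'
  I : Ic S = Ic S'
  Q : Qc S = Qc S'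

end Pool.Agent.Lib.MP_9f84a9_co
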