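import Pool.Agent.Lib.MP_9f84a9_co.StmE

/-!
# MP_9f84a9_co, piece E0
-/

set_option autoImplicit false

namespace Pool.Agent.Lib.MP_9f84a9_co

open Finset Filter Topology

theorem t_E0 : S_E0 := by
  intro N k
  refine ⟨?_, ?_, ?_, ?_, ?_, ?_⟩
  · intro A
    induction A with
    | leaf v => simp [Net.nodes, Net.leaves]
    | node z l r hl hr =>
      simp only [Net.nodes, Net.leaves, List.length_cons, List.length_append]
      omega
  · intro A
    induction A with
    | leaf v => simp [Net.fl, Net.leaves]
    | node z l r hl hr =>
      simp only [Net.fl, Net.leaves, List.mem_append]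
      exact Or.inl hl
  · intro A z
    induction A with
    | leaf v => rfl
    | node i l r hl hr => simp only [SNet.real, Net.leaves, SNet.leaves, hl, hr]
  · intro A z
    induction A with
    | leaf v => rfl
    | node i l r hl hr =>
      simp only [SNet.real, Net.nodes, SNet.names, hl, hr, List.map_cons, List.map_append]
  · intro A z z'
    induction A with
    | leaf v => rfl
    | node i l r hl hr =>
      simp only [SNet.real, Net.fl]
      exact hl
  · intro A z
    cases A with
    | leaf v => rfl
    | node i l r => rfl

end Pool.Agent.Lib.MP_9f84a9_co
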