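import Pool.Agent.Lib.MP_9f84a9_co.StmE

/-!
# MP_9f84a9_co, E1: lexicographic minimum over a finite family of compact sets
-/

set_option autoImplicit false

namespace Pool.Agent.Lib.MP_9f84a9_co

open Finset Filter Topology

private theorem E1_step {ι : Type} {Y : ι → Type} [Finite ι] [∀ i, TopologicalSpace (Y i)]
    [∀ i, T2Space (Y i)] (C : ∀ i, Set (Y i)) (f : ∀ i, Y i → ℝ)
    (hC : ∀ i, IsCompact (C i)) (hf : ∀ i, ContinuousOn (f i) (C i))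
    (hne : ∃ i, (C i).Nonempty) :
    ∃ m : ℝ, (∀ i, IsCompact (C i ∩ f i ⁻¹' Set.Iic m)) ∧
      (∃ i, (C i ∩ f i ⁻¹' Set.Iic m).Nonempty) ∧ ∀ i, ∀ y ∈ C i, m ≤ f i y := by
  classical
  have h1 : ∀ i : {i // (C i).Nonempty}, ∃ y ∈ C i.1, ∀ z ∈ C i.1, f i.1 y ≤ f i.1 z := by
    intro i
    obtain ⟨y, hy, hmin⟩ := (hC i.1).exists_isMinOn i.2 (hf i.1)
    exact ⟨y, hy, fun z hz => hmin hz⟩
  choose y hy hmin using h1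
  obtain ⟨i₁, hi₁⟩ := hne
  have : Nonempty {i // (C i).Nonempty} := ⟨⟨i₁, hi₁⟩⟩
  obtain ⟨i₀, hi₀⟩ := Finite.exists_min (fun i : {i // (C i).Nonempty} => f i.1 (y i))
  refine ⟨f i₀.1 (y i₀), ?_, ⟨i₀.1, y i₀, hy i₀, le_refl (f i₀.1 (y i₀))⟩, ?_⟩
  · intro i
    exact (hC i).of_isClosed_subset
      ((hf i).preimage_isClosed_of_isClosed (hC i).isClosed isClosed_Iic) Set.inter_subset_left
  · intro i z hz
    exact (hi₀ ⟨i, z, hz⟩).trans (hmin ⟨i, z, hz⟩ z hz)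

theorem t_E1 : S_E1 := by
  intro ι Y _ _ _ C f₁ f₂ f₃ f₄ g hC hf₁ hf₂ hf₃ hf₄ hne
  obtain ⟨m₁, c₁, n₁, l₁⟩ := E1_step C f₁ hC hf₁ hne
  obtain ⟨m₂, c₂, n₂, l₂⟩ := E1_step (fun i => C i ∩ f₁ i ⁻¹' Set.Iic m₁) (fun i _ => (g i : ℝ)) c₁
    (fun i => continuousOn_const) n₁
  obtain ⟨m₃, c₃, n₃, l₃⟩ := E1_step _ (fun i y => - f₂ i y) c₂
    (fun i => ((hf₂ i).neg).mono fun y hy => hy.1.1) n₂
  obtain ⟨m₄, c₄, n₄, l₄⟩ := E1_step _ f₃ c₃ (fun i => (hf₃ i).mono fun y hy => hy.1.1.1) n₃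
  obtain ⟨m₅, c₅, n₅, l₅⟩ := E1_step _ f₄ c₄ (fun i => (hf₄ i).mono fun y hy => hy.1.1.1.1) n₄
  obtain ⟨i, y, ⟨⟨⟨⟨hy, h1⟩, h2⟩, h3⟩, h4⟩, h5⟩ := n₅
  rw [Set.mem_preimage, Set.mem_Iic] at h1 h2 h3 h4 h5
  refine ⟨i, y, hy, ?_, ?_, ?_, ?_, ?_⟩
  · intro i' y' hy'
    exact h1.trans (l₁ i' y' hy')
  · intro i' y' hy' k1
    have := l₂ i' y' ⟨hy', k1.trans h1⟩
    exact_mod_cast h2.trans this
  · intro i' y' hy' k1 k2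
    have k2' : (g i' : ℝ) ≤ m₂ := le_trans (by exact_mod_cast k2) h2
    have := l₃ i' y' ⟨⟨hy', k1.trans h1⟩, k2'⟩
    linarith
  · intro i' y' hy' k1 k2 k3
    have k2' : (g i' : ℝ) ≤ m₂ := le_trans (by exact_mod_cast k2) h2
    have k3' : - f₂ i' y' ≤ m₃ := by linarith
    have := l₄ i' y' ⟨⟨⟨hy', k1.trans h1⟩, k2'⟩, k3'⟩
    linarith
  · intro i' y' hy' k1 k2 k3 k4
    have k2' : (g i' : ℝ) ≤ m₂ := le_trans (by exact_mod_cast k2) h2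
    have k3' : - f₂ i' y' ≤ m₃ := by linarith
    have k4' : f₃ i' y' ≤ m₄ := k4.trans h4
    have := l₅ i' y' ⟨⟨⟨⟨hy', k1.trans h1⟩, k2'⟩, k3'⟩, k4'⟩
    linarith

end Pool.Agent.Lib.MP_9f84a9_co
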