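import Pool.Agent.Lib.MP_9f84a9_co.E.E8

/-!
# MP_9f84a9_co, [E10]: existence of the extremal configuration from E1, E6, E7, E8, E9
-/

set_option autoImplicit false

namespace Pool.Agent.Lib.MP_9f84a9_co

open Finset Filter Topology

/-- `mu` does not depend on the data -/
theorem e10_mu (hX2 : S_X2) {N k m : ℕ} (t : Fin m → SP N k) (y : Fin m → Dat N k) :
    mu (mk t y) = mu (mk t 0) := by
  unfold mu mk
  rw [List.map_ofFn, List.sum_ofFn, List.map_ofFn, List.sum_ofFn]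
  refine Finset.sum_congr rfl fun j _ => ?_
  show (((t j).real (y j)).lv.length - 1) ^ 2 * (((t j).real (y j)).D.vl.length - 1) =
    (((t j).real 0).lv.length - 1) ^ 2 * (((t j).real 0).D.vl.length - 1)
  rw [(hX2 N k (t j) (y j)).2.2.1, (hX2 N k (t j) 0).2.2.1]
  rfl

/-- a minimisation step, with the sublevel sets -/
theorem e10_step (h9 : S_E9) {ι : Type} [Finite ι] {Y : ι → Type} [∀ i, TopologicalSpace (Y i)]
    [∀ i, T2Space (Y i)] (C : ∀ i, Set (Y i)) (f : ∀ i, Y i → ℝ) (hC : ∀ i, IsCompact (C i))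
    (hf : ∀ i, ContinuousOn (f i) (C i)) (hne : ∃ i, (C i).Nonempty) :
    ∃ (c : ℝ) (C' : ∀ i, Set (Y i)), (∀ i y, y ∈ C' i ↔ y ∈ C i ∧ f i y ≤ c) ∧
      (∀ i, ∀ y ∈ C i, c ≤ f i y) ∧ (∀ i, IsCompact (C' i)) ∧ ∃ i, (C' i).Nonempty := by
  obtain ⟨c, h1, h2, h3⟩ := h9 ι Y C f hC hf hne
  exact ⟨c, fun i => C i ∩ {y | f i y ≤ c}, fun i y => Iff.rfl, h1, h3, h2⟩

theorem t_E10 (h1 : S_E1) (h6 : S_E6) (h7 : S_E7) (h8 : S_E8) (h9 : S_E9) (hX2 : S_X2) :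
    S_comp := by
  intro N Cl P R1 S₀ hS₀
  have hfin : Finite (TT N Cl) := (h1 N Cl).to_subtype
  let ι : Type := Σ m : Fin (Cl.card + 1), (Fin m.val → TT N Cl)
  let Y : ι → Type := fun i => Fin i.1.val → Dat N Cl.card
  let ty : ∀ i : ι, Fin i.1.val → SP N Cl.card := fun i j => (i.2 j).val
  have hty : ∀ (i : ι) j, (ty i j).D.ok := fun i j => (i.2 j).2.1
  let C0 : ∀ i : ι, Set (Y i) := fun i => YY Cl P (ty i)
  have hC0 : ∀ i, IsCompact (C0 i) := fun i => h8 N Cl.card i.1.val Cl P (ty i) (hty i)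
  have hcont := fun i : ι => h7 N Cl.card i.1.val Cl P R1 (ty i) (hty i)
  -- the normal form
  have hnf : ∀ S : Cfg N, InD Cl P S → ∃ (i : ι) (y : Y i), y ∈ C0 i ∧
      SameVal R1 (mk (ty i) y) S := by
    intro S hS
    obtain ⟨m, t, y, hm, ht, hy, hv⟩ := h6 N Cl P R1 S hS
    exact ⟨⟨⟨m, Nat.lt_succ_of_le hm⟩, fun j => ⟨t j, ht j⟩⟩, y, hy, hv⟩
  have hne0 : ∃ i, (C0 i).Nonempty := by
    obtain ⟨i, y, hy, -⟩ := hnf S₀ hS₀
    exact ⟨i, y, hy⟩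
  obtain ⟨c1, C1, m1, l1, k1, n1⟩ := e10_step h9 C0 (fun i y => Lc (mk (ty i) y)) hC0
    (fun i => (hcont i).1) hne0
  obtain ⟨c2, C2, m2, l2, k2, n2⟩ := e10_step h9 C1 (fun i y => (mu (mk (ty i) y) : ℝ)) k1
    (fun i => by
      have h : (fun y : Y i => (mu (mk (ty i) y) : ℝ)) = fun _ => (mu (mk (ty i) 0) : ℝ) := by
        funext y
        rw [e10_mu hX2]
      rw [h]
      exact continuousOn_const) n1
  obtain ⟨c3, C3, m3, l3, k3, n3⟩ := e10_step h9 C2 (fun i y => -Phi R1 (mk (ty i) y)) k2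
    (fun i => (hcont i).2.1.neg.continuousOn) n2
  obtain ⟨c4, C4, m4, l4, k4, n4⟩ := e10_step h9 C3 (fun i y => Ic (mk (ty i) y)) k3
    (fun i => (hcont i).2.2.1.continuousOn) n3
  obtain ⟨c5, C5, m5, l5, k5, n5⟩ := e10_step h9 C4 (fun i y => Qc (mk (ty i) y)) k4
    (fun i => (hcont i).2.2.2.continuousOn) n4
  obtain ⟨i, y, hy⟩ := n5
  have q5 := (m5 i y).1 hy
  have q4 := (m4 i y).1 q5.1
  have q3 := (m3 i y).1 q4.1
  have q2 := (m2 i y).1 q3.1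
  have q1 := (m1 i y).1 q2.1
  refine ⟨mk (ty i) y, q1.1.2, ?_, ?_, ?_, ?_, ?_⟩
  · intro S' hS'
    obtain ⟨i', y', hy', hv⟩ := hnf S' hS'
    rw [← hv.L]
    exact q1.2.trans (l1 i' y' hy')
  · intro S' hS' hL
    obtain ⟨i', y', hy', hv⟩ := hnf S' hS'
    have p1 : y' ∈ C1 i' := (m1 i' y').2 ⟨hy', by rw [hv.L]; exact hL.trans q1.2⟩
    have p2 := q2.2.trans (l2 i' y' p1)
    rw [hv.m] at p2
    exact_mod_cast p2
  · intro S' hS' hL hm
    obtain ⟨i', y', hy', hv⟩ := hnf S' hS'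
    have p1 : y' ∈ C1 i' := (m1 i' y').2 ⟨hy', by rw [hv.L]; exact hL.trans q1.2⟩
    have p2 : y' ∈ C2 i' := (m2 i' y').2 ⟨p1, by
      rw [hv.m]
      have : (mu S' : ℝ) ≤ (mu (mk (ty i) y) : ℝ) := by exact_mod_cast hm
      exact this.trans q2.2⟩
    have p3 := q3.2.trans (l3 i' y' p2)
    rw [hv.F] at p3
    linarith
  · intro S' hS' hL hm hF
    obtain ⟨i', y', hy', hv⟩ := hnf S' hS'
    have p1 : y' ∈ C1 i' := (m1 i' y').2 ⟨hy', by rw [hv.L]; exact hL.trans q1.2⟩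
    have p2 : y' ∈ C2 i' := (m2 i' y').2 ⟨p1, by
      rw [hv.m]
      have : (mu S' : ℝ) ≤ (mu (mk (ty i) y) : ℝ) := by exact_mod_cast hm
      exact this.trans q2.2⟩
    have p3 : y' ∈ C3 i' := (m3 i' y').2 ⟨p2, by
      rw [hv.F]
      have := q3.2
      linarith⟩
    have p4 := q4.2.trans (l4 i' y' p3)
    rwa [hv.I] at p4
  · intro S' hS' hL hm hF hI
    obtain ⟨i', y', hy', hv⟩ := hnf S' hS'
    have p1 : y' ∈ C1 i' := (m1 i' y').2 ⟨hy', by rw [hv.L]; exact hL.trans q1.2⟩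
    have p2 : y' ∈ C2 i' := (m2 i' y').2 ⟨p1, by
      rw [hv.m]
      have : (mu S' : ℝ) ≤ (mu (mk (ty i) y) : ℝ) := by exact_mod_cast hm
      exact this.trans q2.2⟩
    have p3 : y' ∈ C3 i' := (m3 i' y').2 ⟨p2, by
      rw [hv.F]
      have := q3.2
      linarith⟩
    have p4 : y' ∈ C4 i' := (m4 i' y').2 ⟨p3, by rw [hv.I]; exact hI.trans q4.2⟩
    have p5 := q5.2.trans (l5 i' y' p4)
    rwa [hv.Q] at p5

end Pool.Agent.Lib.MP_9f84a9_co
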