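import Pool.Agent.Lib.MP_9f84a9_co.StmE

/-!
# MP_9f84a9_co, piece E2: there are finitely many admissible types
-/

set_option autoImplicit false

namespace Pool.Agent.Lib.MP_9f84a9_co

open Finset Filter Topology

namespace E2aux

theorem fin_PT (N n : ℕ) : {P : PT N | P.vs.length ≤ n}.Finite := by
  induction n with
  | zero =>
    refine (Set.finite_singleton (PT.nil : PT N)).subset ?_
    intro P hP
    cases P with
    | nil => simp
    | node w l r =>
      exfalso
      have : (PT.node w l r).vs.length ≤ 0 := hP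
      simp [PT.vs] at this
  | succ n ih =>
    have h1 : (Set.univ ×ˢ ({P : PT N | P.vs.length ≤ n} ×ˢ {P : PT N | P.vs.length ≤ n}) :
        Set (Fin N × PT N × PT N)).Finite := Set.finite_univ.prod (ih.prod ih)
    refine ((h1.image fun x => PT.node x.1 x.2.1 x.2.2).insert PT.nil).subset ?_
    intro P hP
    cases P with
    | nil => exact Set.mem_insert _ _
    | node w l r =>
      refine Set.mem_insert_of_mem _ ⟨(w, l, r), ?_, rfl⟩
      have h2 : (PT.node w l r).vs.length ≤ n + 1 := hP
      simp only [PT.vs, List.length_cons, List.length_append] at h2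
      refine ⟨trivial, ?_, ?_⟩
      · show l.vs.length ≤ n
        omega
      · show r.vs.length ≤ n
        omega

theorem fin_Dsc (N : ℕ) : {D : Dsc N | D.ok}.Finite := by
  have h1 : ((Set.univ : Set (Fin N)) ×ˢ (Set.univ : Set (Fin N)) ×ˢ
      {P : PT N | P.vs.length ≤ N} ×ˢ {P : PT N | P.vs.length ≤ N}).Finite :=
    Set.finite_univ.prod (Set.finite_univ.prod ((fin_PT N N).prod (fin_PT N N)))
  refine (h1.image fun x => (⟨x.1, x.2.1, x.2.2.1, x.2.2.2⟩ : Dsc N)).subset ?_
  intro D hD
  have h2 : D.vl.length ≤ N := by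
    have := List.Nodup.length_le_card (show D.vl.Nodup from hD)
    simpa using this
  simp only [Dsc.vl, List.length_cons, List.length_append] at h2
  refine ⟨(D.a, D.b, D.P, D.R), ⟨trivial, trivial, ?_, ?_⟩, rfl⟩
  · show D.P.vs.length ≤ N
    omega
  · show D.R.vs.length ≤ N
    omega

theorem fin_lab (N : ℕ) (Cl : Finset ℕ) : {l : Fin N → ℕ | ∀ v, l v ∈ Cl}.Finite := by
  have h := Set.Finite.pi' (ι := Fin N) (t := fun _ : Fin N => (Cl : Set ℕ))
    fun _ => Cl.finite_toSet
  exact h.subset fun l hl v => hl v

theorem leaves_pos {N k : ℕ} (A : SNet N k) : 1 ≤ A.leaves.length := by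
  induction A with
  | leaf v => simp [SNet.leaves]
  | node i l r ihl ihr =>
    simp only [SNet.leaves, List.length_append]
    omega

theorem fin_SNet (N k n : ℕ) : {A : SNet N k | A.leaves.length ≤ n}.Finite := by
  induction n with
  | zero =>
    refine Set.finite_empty.subset ?_
    intro A hA
    have h1 : A.leaves.length ≤ 0 := hA
    have h2 := leaves_pos A
    omega
  | succ n ih =>
    have h1 : (Set.univ ×ˢ ({A : SNet N k | A.leaves.length ≤ n} ×ˢ
        {A : SNet N k | A.leaves.length ≤ n}) :
        Set (Fin k × SNet N k × SNet N k)).Finite := Set.finite_univ.prod (ih.prod ih)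
    refine ((h1.image fun x => SNet.node x.1 x.2.1 x.2.2).union
      (Set.finite_range (SNet.leaf : Fin N → SNet N k))).subset ?_
    intro A hA
    cases A with
    | leaf v => exact Or.inr ⟨v, rfl⟩
    | node i l r =>
      refine Or.inl ⟨(i, l, r), ?_, rfl⟩
      have h2 : (SNet.node i l r).leaves.length ≤ n + 1 := hA
      simp only [SNet.leaves, List.length_append] at h2
      have h3 := leaves_pos l
      have h4 := leaves_pos r
      refine ⟨trivial, ?_, ?_⟩
      · show l.leaves.length ≤ n
        omega
      · show r.leaves.length ≤ n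
        omega

end E2aux

/-- [E2] -/
theorem t_E2 : S_E2 := by
  intro N k n Cl
  have h1 := (E2aux.fin_Dsc N).prod ((E2aux.fin_lab N Cl).prod
    ((E2aux.fin_SNet N k n).prod (E2aux.fin_SNet N k n)))
  refine (h1.image fun x => (⟨x.1, x.2.1, x.2.2⟩ : SP N k)).subset ?_
  intro t ht
  obtain ⟨h2, h3, h4⟩ := ht
  simp only [List.length_append] at h4
  refine ⟨(t.D, t.lab, t.T), ⟨h2, h3, ?_, ?_⟩, rfl⟩
  · show t.T.1.leaves.length ≤ n
    omega
  · show t.T.2.leaves.length ≤ n
    omega

end Pool.Agent.Lib.MP_9f84a9_co
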