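import Pool.Agent.Lib.MP_9f84a9_co.StmE

/-!
# MP_9f84a9_co: piece E3, symbolic form of a network
-/

set_option autoImplicit false

namespace Pool.Agent.Lib.MP_9f84a9_co

namespace E3

/-- every network whose nodes form a segment of the list `ns` is the realization of a symbolic network -/
theorem symb {N k : ℕ} (A : Net N) : ∀ (pre post ns : List (Pt N)),
    ns = pre ++ A.nodes ++ post → ns.length ≤ k →
    ∃ A' : SNet N k, A'.real (fun i => ns.getD i.1 0) = A := by
  induction A with
  | leaf v => intro pre post ns _ _; exact ⟨SNet.leaf v, rfl⟩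
  | node z l r ihl ihr =>
    intro pre post ns hns hk
    have h1 : ns = (pre ++ [z]) ++ l.nodes ++ (r.nodes ++ post) := by
      rw [hns]; simp [Net.nodes]
    have h2 : ns = (pre ++ z :: l.nodes) ++ r.nodes ++ post := by
      rw [hns]; simp [Net.nodes]
    obtain ⟨l', hl⟩ := ihl _ _ ns h1 hk
    obtain ⟨r', hr⟩ := ihr _ _ ns h2 hk
    have hlt : pre.length < k := by
      have : pre.length < ns.length := by
        rw [hns]; simp [Net.nodes]
      omega
    refine ⟨SNet.node ⟨pre.length, hlt⟩ l' r', ?_⟩
    have hz : ns.getD pre.length 0 = z := by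
      rw [h1]
      simp [List.getD]
    simp only [SNet.real, hl, hr, hz]

end E3

theorem t_E3 (_hE0 : S_E0) : S_E3 := by
  intro N k T hk hz
  obtain ⟨A', hA⟩ := E3.symb (k := k) T.1 [] T.2.nodes (T.1.nodes ++ T.2.nodes) (by simp) hk
  obtain ⟨B', hB⟩ := E3.symb (k := k) T.2 T.1.nodes [] (T.1.nodes ++ T.2.nodes) (by simp) hk
  refine ⟨(A', B'), fun i => (T.1.nodes ++ T.2.nodes).getD i.1 0, ?_, ?_⟩
  · simp only [hA, hB]
  · intro i v
    by_cases h : i.1 < (T.1.nodes ++ T.2.nodes).length
    · have : (T.1.nodes ++ T.2.nodes).getD i.1 0 ∈ T.1.nodes ++ T.2.nodes := by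
        rw [List.getD_eq_getElem _ _ h]
        exact List.getElem_mem h
      exact hz _ this v
    · have : (T.1.nodes ++ T.2.nodes).getD i.1 0 = 0 := by
        rw [List.getD_eq_default]
        omega
      simp only [this]
      simp

end Pool.Agent.Lib.MP_9f84a9_co
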