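import Pool.Agent.Lib.MP_9f84a9_co.StmE

/-!
# MP_9f84a9_co, E4: normalisation of the positions of a piece
-/

set_option autoImplicit false

namespace Pool.Agent.Lib.MP_9f84a9_co

open Finset Filter Topology

private theorem E4_ar (u v w c : E) : ar (u - c) (v - c) (w - c) = ar u v w := by
  unfold ar
  simp only [PiLp.sub_apply]
  ring

private theorem E4_dist (u v c : E) : dist (u - c) (v - c) = dist u v := dist_sub_right u v c

private theorem E4_WPos {N : ℕ} (p p' : Fin N → E) (c : E) (S : Fin N → Prop)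
    (h : ∀ v, S v → p' v = p v - c) :
    ∀ (P : PT N) (a b : Fin N), S a → S b → (∀ v ∈ P.vs, S v) → (P.WPos p' a b ↔ P.WPos p a b) := by
  intro P
  induction P with
  | nil =>
    intro a b _ _ _
    exact Iff.rfl
  | node w l r hl hr =>
    intro a b ha hb hv
    have hw : S w := hv w (by simp [PT.vs])
    have h1 := hl a w ha hw (fun v hv' => hv v (by simp [PT.vs, hv']))
    have h2 := hr w b hw hb (fun v hv' => hv v (by simp [PT.vs, hv']))
    unfold PT.WPos
    rw [h1, h2, h a ha, h b hb, h w hw, E4_ar]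

private theorem E4_Q {N : ℕ} (p p' : Fin N → E) (c : E) (S : Fin N → Prop)
    (h : ∀ v, S v → p' v = p v - c) :
    ∀ (P : PT N) (a b : Fin N), S a → S b → (∀ v ∈ P.vs, S v) → P.Q p' a b = P.Q p a b := by
  intro P
  induction P with
  | nil =>
    intro a b _ _ _
    rfl
  | node w l r hl hr =>
    intro a b ha hb hv
    have hw : S w := hv w (by simp [PT.vs])
    have h1 := hl a w ha hw (fun v hv' => hv v (by simp [PT.vs, hv']))
    have h2 := hr w b hw hb (fun v hv' => hv v (by simp [PT.vs, hv']))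
    unfold PT.Q
    rw [h1, h2, h a ha, h b hb, h w hw, E4_dist, E4_dist]

private theorem E4_I {N : ℕ} (p p' : Fin N → E) (S : Fin N → Prop)
    (h : ∀ v, S v → p' v = p v) :
    ∀ (P : PT N) (a b : Fin N), S a → S b → (∀ v ∈ P.vs, S v) → P.I p' a b = P.I p a b := by
  intro P
  induction P with
  | nil =>
    intro a b _ _ _
    rfl
  | node w l r hl hr =>
    intro a b ha hb hv
    have hw : S w := hv w (by simp [PT.vs])
    have h1 := hl a w ha hw (fun v hv' => hv v (by simp [PT.vs, hv']))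
    have h2 := hr w b hw hb (fun v hv' => hv v (by simp [PT.vs, hv']))
    unfold PT.I
    rw [h1, h2, h a ha, h b hb, h w hw]

private theorem E4_path {N : ℕ} {K : Cx N} {c c' : Pt N → Pt N → ℝ}
    (h : ∀ x y, Stp K x y → c x y = c' x y) {x y : Pt N} {k : ℕ} {r : ℝ}
    (hp : Path K c x y k r) : Path K c' x y k r := by
  induction hp with
  | nil x hx => exact Path.nil x hx
  | cons x y z k r hs _ ih =>
    rw [h x y hs]
    exact Path.cons x y z k r hs ih

private theorem E4_dK {N : ℕ} {K : Cx N} {c c' : Pt N → Pt N → ℝ}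
    (h : ∀ x y, Stp K x y → c x y = c' x y) (x y : Pt N) : dK K c x y = dK K c' x y := by
  unfold dK
  congr 1
  ext r
  constructor
  · rintro ⟨k, hk⟩
    exact ⟨k, E4_path h hk⟩
  · rintro ⟨k, hk⟩
    exact ⟨k, E4_path (fun x y hs => (h x y hs).symm) hk⟩

theorem t_E4 (hA1 : S_A1) (hB4 : S_B4) (hE0 : S_E0) : S_E4 := by
  classical
  intro N Cl P R1 q hq
  obtain ⟨-, hfl, -⟩ := hE0 N 0
  have hroot : q.root ∈ q.D.vl := by
    apply hq.lvs
    unfold Piece.lv Piece.root
    exact List.mem_append_left _ (hfl q.T.1)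
  have hP : 0 ≤ P := by
    have := hq.diam _ hroot _ hroot
    rwa [dist_self] at this
  set c : E := q.p q.root with hc
  set p' : Fin N → E := fun v => if v ∈ q.D.vl then q.p v - c else 0 with hp'
  have hv : ∀ v, v ∈ q.D.vl → p' v = q.p v - c := by
    intro v hv
    rw [hp']
    exact if_pos hv
  have hr0 : p' q.root = 0 := by rw [hv _ hroot, hc, sub_self]
  have hdist : ∀ v ∈ q.D.vl, ∀ w ∈ q.D.vl, dist (p' v) (p' w) = dist (q.p v) (q.p w) := by
    intro v hv1 w hw1
    rw [hv v hv1, hv w hw1, E4_dist]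
  have hpos : ∀ x, In q.D.K x → pos p' x = pos q.p x - c := by
    intro x hx
    obtain ⟨-, hx1, f, hf, hsup⟩ := hx
    have h1 : ∀ v, x v • p' v = x v • (q.p v - c) := by
      intro v
      by_cases hxv : x v = 0
      · rw [hxv, zero_smul, zero_smul]
      · have hvf : v ∈ f := by
          by_contra hcon
          exact hxv (hsup v hcon)
        rw [hv v ((hB4 N q.D hq.dok).1 f hf v hvf)]
    unfold pos
    rw [Finset.sum_congr rfl (fun v _ => h1 v)]
    simp only [smul_sub]
    rw [Finset.sum_sub_distrib, ← Finset.sum_smul, hx1, one_smul]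
  have hce : ∀ x y, Stp q.D.K x y → ce p' x y = ce q.p x y := by
    intro x y hs
    obtain ⟨hx, hy⟩ := (hA1 N).2.2.2.1 q.D.K x y hs
    unfold ce
    rw [hpos x hx, hpos y hy, E4_dist]
  have hd : ∀ x y, (Piece.mk q.D p' q.lab q.T).d x y = q.d x y := by
    intro x y
    exact E4_dK hce x y
  have ha : q.D.a ∈ q.D.vl := by simp [Dsc.vl]
  have hb : q.D.b ∈ q.D.vl := by simp [Dsc.vl]
  have hPv : ∀ v ∈ q.D.P.vs, v ∈ q.D.vl := by
    intro v hv1
    simp [Dsc.vl, hv1]
  have hRv : ∀ v ∈ q.D.R.vs, v ∈ q.D.vl := by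
    intro v hv1
    simp [Dsc.vl, hv1]
  refine ⟨p', ?_, ?_, hd, ?_, ?_, ?_, ?_⟩
  · intro v
    by_cases h : v ∈ q.D.vl
    · rw [hv v h, ← dist_eq_norm]
      exact hq.diam v h _ hroot
    · have : p' v = 0 := if_neg h
      rw [this, norm_zero]
      exact hP
  · refine ⟨hq.dok, ?_, hq.labs, hq.nods, hq.lvs, ?_⟩
    · obtain ⟨h1, h2⟩ := hq.wpos
      exact ⟨(E4_WPos q.p p' c (· ∈ q.D.vl) hv q.D.P q.D.a q.D.b ha hb hPv).2 h1,
        (E4_WPos q.p p' c (· ∈ q.D.vl) hv q.D.R q.D.b q.D.a hb ha hRv).2 h2⟩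
    · intro v hv1 w hw1
      show dist (p' v) (p' w) ≤ P
      rw [hdist v hv1 w hw1]
      exact hq.diam v hv1 w hw1
  · have : (Piece.mk q.D p' q.lab q.T).d = q.d := by
      funext x y
      exact hd x y
    unfold Piece.L
    rw [this]
  · show (q.D.vl.map fun v => phi R1 (dist (p' v) (p' q.root))).sum +
      (q.nd.map fun z => dist (pos p' z) (p' q.root) ^ 2).sum = _
    unfold Piece.Phi
    congr 2
    · apply List.map_congr_left
      intro v hv1
      rw [hdist v hv1 _ hroot]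
    · apply List.map_congr_left
      intro z hz
      rw [hpos z (hq.nods z hz), hv _ hroot, E4_dist]
  · have h : ∀ v, v ∈ q.D.vl → p' v - p' q.root = q.p v - c := by
      intro v hv1
      rw [hr0, sub_zero, hv v hv1]
    unfold Dsc.I
    rw [E4_I (fun v => q.p v - c) (fun v => p' v - p' q.root) (· ∈ q.D.vl) h q.D.P _ _ ha hb hPv,
      E4_I (fun v => q.p v - c) (fun v => p' v - p' q.root) (· ∈ q.D.vl) h q.D.R _ _ hb ha hRv]
  · unfold Dsc.Q
    rw [E4_Q q.p p' c (· ∈ q.D.vl) hv q.D.P _ _ ha hb hPv,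
      E4_Q q.p p' c (· ∈ q.D.vl) hv q.D.R _ _ hb ha hRv, hdist _ ha _ hb]

end Pool.Agent.Lib.MP_9f84a9_co
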