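import Pool.Agent.Lib.MP_9f84a9_co.StmE

/-!
# MP_9f84a9_co, piece E5: admissibility of a piece is closed, the box is compact
-/

set_option autoImplicit false

namespace Pool.Agent.Lib.MP_9f84a9_co

open Finset Filter Topology

namespace E5aux

variable {N k : ℕ}

theorem cont_ar (a b w : Fin N) :
    Continuous fun y : Dat N k => ar (y.1 a) (y.1 b) (y.1 w) := by
  have h : ∀ (v : Fin N) (i : Fin 2), Continuous fun y : Dat N k => (y.1 v) i := by
    intro v i
    have h1 : Continuous fun y : Dat N k => y.1 v := (continuous_apply v).comp continuous_fst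
    exact (EuclideanSpace.proj i : E →L[ℝ] ℝ).continuous.comp h1
  unfold ar
  exact (((h b 0).sub (h a 0)).mul ((h w 1).sub (h a 1))).sub
    (((h b 1).sub (h a 1)).mul ((h w 0).sub (h a 0)))

theorem closed_wpos (Q : PT N) : ∀ a b : Fin N,
    IsClosed {y : Dat N k | Q.WPos y.1 a b} := by
  induction Q with
  | nil => intro a b; simp [PT.WPos]
  | node w l r ihl ihr =>
    intro a b
    have h1 : IsClosed {y : Dat N k | 0 ≤ ar (y.1 a) (y.1 b) (y.1 w)} :=
      isClosed_le continuous_const (cont_ar a b w)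
    exact h1.inter ((ihl a w).inter (ihr w b))

theorem closed_In (K : Cx N) : IsClosed {x : Pt N | In K x} := by
  have h1 : IsClosed {x : Pt N | ∀ v, 0 ≤ x v} := by
    have : {x : Pt N | ∀ v, 0 ≤ x v} = ⋂ v, {x : Pt N | 0 ≤ x v} := by ext x; simp
    rw [this]
    exact isClosed_iInter fun v => isClosed_le continuous_const (continuous_apply v)
  have h2 : IsClosed {x : Pt N | ∑ v, x v = 1} :=
    isClosed_eq (continuous_finsetSum _ fun v _ => continuous_apply v) continuous_const
  have h3 : IsClosed {x : Pt N | ∃ f ∈ K, Sup x f} := by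
    have : {x : Pt N | ∃ f ∈ K, Sup x f} = ⋃ f ∈ K, {x : Pt N | Sup x f} := by ext x; simp
    rw [this]
    refine isClosed_biUnion_finset fun f _ => ?_
    have h4 : {x : Pt N | Sup x f} = ⋂ v, ⋂ (_ : v ∉ f), {x : Pt N | x v = 0} := by
      ext x; simp [Sup]
    rw [h4]
    exact isClosed_iInter fun v => isClosed_iInter fun _ =>
      isClosed_eq (continuous_apply v) continuous_const
  exact h1.inter (h2.inter h3)

theorem ok_iff (hE0 : S_E0) (Cl : Finset ℕ) (P : ℝ) (t : SP N k) (y : Dat N k) :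
    (t.real y).ok Cl P ↔ t.D.ok ∧ (t.D.P.WPos y.1 t.D.a t.D.b ∧ t.D.R.WPos y.1 t.D.b t.D.a) ∧
      (∀ v, t.lab v ∈ Cl) ∧ (∀ i ∈ t.T.1.names ++ t.T.2.names, In t.D.K (y.2 i)) ∧
      (∀ v ∈ t.T.1.leaves ++ t.T.2.leaves, v ∈ t.D.vl) ∧
      (∀ v ∈ t.D.vl, ∀ w ∈ t.D.vl, dist (y.1 v) (y.1 w) ≤ P) := by
  obtain ⟨-, -, hl, hn, -, -⟩ := hE0 N k
  have hlv : (t.real y).lv = t.T.1.leaves ++ t.T.2.leaves := by
    simp [Piece.lv, SP.real, hl]
  have hnd : (t.real y).nd = (t.T.1.names ++ t.T.2.names).map y.2 := by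
    simp [Piece.nd, SP.real, hn]
  constructor
  · intro h
    refine ⟨h.dok, h.wpos, h.labs, ?_, ?_, h.diam⟩
    · intro i hi
      exact h.nods (y.2 i) (by rw [hnd]; exact List.mem_map.2 ⟨i, hi, rfl⟩)
    · intro v hv
      exact h.lvs v (by rw [hlv]; exact hv)
  · rintro ⟨h1, h2, h3, h4, h5, h6⟩
    refine ⟨h1, h2, h3, ?_, ?_, h6⟩
    · intro z hz
      rw [hnd] at hz
      obtain ⟨i, hi, rfl⟩ := List.mem_map.1 hz
      exact h4 i hi
    · intro v hv
      rw [hlv] at hv
      exact h5 v hv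

theorem closed_ok (hE0 : S_E0) (Cl : Finset ℕ) (P : ℝ) (t : SP N k) :
    IsClosed {y : Dat N k | (t.real y).ok Cl P} := by
  have e : {y : Dat N k | (t.real y).ok Cl P} =
      {_y : Dat N k | t.D.ok} ∩ (({y | t.D.P.WPos y.1 t.D.a t.D.b} ∩
        {y | t.D.R.WPos y.1 t.D.b t.D.a}) ∩
      ({_y | ∀ v, t.lab v ∈ Cl} ∩ ((⋂ i ∈ {i | i ∈ t.T.1.names ++ t.T.2.names},
          {y | In t.D.K (y.2 i)}) ∩
        ({_y | ∀ v ∈ t.T.1.leaves ++ t.T.2.leaves, v ∈ t.D.vl} ∩
          (⋂ v ∈ {v | v ∈ t.D.vl}, ⋂ w ∈ {w | w ∈ t.D.vl},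
            {y | dist (y.1 v) (y.1 w) ≤ P}))))) := by
    ext y
    simp only [Set.mem_ofPred_eq, Set.mem_inter_iff, Set.mem_iInter]
    exact ok_iff hE0 Cl P t y
  rw [e]
  have hc : ∀ p : Prop, IsClosed {_y : Dat N k | p} := fun p => isClosed_const
  refine (hc _).inter (((closed_wpos _ _ _).inter (closed_wpos _ _ _)).inter
    ((hc _).inter (IsClosed.inter ?_ ((hc _).inter ?_))))
  · refine isClosed_biInter fun i _ => ?_
    have hcont : Continuous fun y : Dat N k => y.2 i := (continuous_apply i).comp continuous_snd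
    exact (closed_In t.D.K).preimage hcont
  · refine isClosed_biInter fun v _ => isClosed_biInter fun w _ => ?_
    refine isClosed_le (Continuous.dist ?_ ?_) continuous_const
    · exact (continuous_apply v).comp continuous_fst
    · exact (continuous_apply w).comp continuous_fst

theorem compact_box (P : ℝ) : IsCompact (Box N k P) := by
  have e : Box N k P = (Set.univ.pi fun _ : Fin N => Metric.closedBall (0 : E) P) ×ˢ
      (Set.univ.pi fun _ : Fin k => Set.univ.pi fun _ : Fin N => Set.Icc (0 : ℝ) 1) := by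
    ext y
    constructor
    · intro h
      refine ⟨fun v _ => ?_, fun i _ v _ => ?_⟩
      · rw [Metric.mem_closedBall, dist_zero_right]
        exact h.1 v
      · exact h.2 i v
    · intro h
      refine ⟨fun v => ?_, fun i v => ?_⟩
      · have := h.1 v trivial
        rwa [Metric.mem_closedBall, dist_zero_right] at this
      · exact h.2 i trivial v trivial
  rw [e]
  exact (isCompact_univ_pi fun _ => isCompact_closedBall _ _).prod
    (isCompact_univ_pi fun _ => isCompact_univ_pi fun _ => isCompact_Icc)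

end E5aux

/-- [E5] -/
theorem t_E5 (hE0 : S_E0) : S_E5 := by
  intro N k Cl P
  exact ⟨fun t => E5aux.closed_ok hE0 Cl P t, E5aux.compact_box P⟩

end Pool.Agent.Lib.MP_9f84a9_co
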