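import Pool.Agent.Lib.MP_9f84a9_co.StmE

/-!
# MP_9f84a9_co, [E6]: the condition on spanning sets of chords is closed (statement file `StmE`)
-/

set_option autoImplicit false

namespace Pool.Agent.Lib.MP_9f84a9_co

open Finset Filter Topology

theorem t_E6 (hA1 : S_A1) (hA7 : S_A7) (hB4 : S_B4) (hB5 : S_B5) : S_E6 := by
  intro N k m Cl P t y y₀ hlim hok hok₀ hM l hl hJ
  have hlimj : ∀ j, Tendsto (fun n => (y n j).1) atTop (𝓝 (y₀ j).1) := fun j =>
    (continuous_fst.tendsto _).comp ((tendsto_pi_nhds.1 hlim) j)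
  -- the chords stay available up to a small error
  have hev : ∀ ε : ℝ, 0 < ε → ∀ e ∈ l, ∀ᶠ n in atTop,
      Ch (mk t (y n)) e.1 e.2.1 (e.2.2 + ε) := by
    intro ε hε e he
    obtain ⟨q, hq, v, hv, w, hw, h1, h2, h3⟩ := hl e he
    obtain ⟨j, rfl⟩ := (List.mem_ofFn' _ _).1 hq
    have hin : ∀ v ∈ (t j).D.vl, In (t j).D.K (vx v) := by
      intro v hv
      obtain ⟨f, hf, hvf⟩ := (hB4 N (t j).D (hok₀ j).dok).2.1 v hv
      exact ((hA1 N).2.2.2.2.1 _ f v hf hvf).1
    have hc : Tendsto (fun n => dK (t j).D.K (ce (y n j).1) (vx v) (vx w)) atTop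
        (𝓝 (dK (t j).D.K (ce (y₀ j).1) (vx v) (vx w))) :=
      hA7 N (t j).D.K ℕ atTop (fun n => (y n j).1) (y₀ j).1 (fun _ => vx v) (fun _ => vx w)
        (vx v) (vx w) (hB5 N (t j).D (hok₀ j).dok) (hlimj j) tendsto_const_nhds
        tendsto_const_nhds (Eventually.of_forall fun _ => hin v hv)
        (Eventually.of_forall fun _ => hin w hw) (hin v hv) (hin w hw)
    have h4 := hc.eventually (gt_mem_nhds (lt_add_of_pos_right _ hε))
    filter_upwards [h4] with n hn
    refine ⟨(t j).real (y n j), (List.mem_ofFn' _ _).2 ⟨j, rfl⟩, v, hv, w, hw, h1, h2, ?_⟩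
    have h3' : dK (t j).D.K (ce (y₀ j).1) (vx v) (vx w) ≤ e.2.2 := h3
    show dK (t j).D.K (ce (y n j).1) (vx v) (vx w) ≤ e.2.2 + ε
    linarith
  have hsum : ∀ (ε : ℝ) (l : List (ℕ × ℕ × ℝ)),
      ((l.map fun e => (e.1, e.2.1, e.2.2 + ε)).map (·.2.2)).sum =
        (l.map (·.2.2)).sum + l.length * ε := by
    intro ε l
    induction l with
    | nil => simp
    | cons a l ih =>
      simp only [List.map_cons, List.sum_cons, List.length_cons] at ih ⊢
      rw [ih]
      push_cast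
      ring
  have hmain : ∀ ε : ℝ, 0 < ε → 1 ≤ (l.map (·.2.2)).sum + l.length * ε := by
    intro ε hε
    have h5 : ∀ᶠ n in atTop, ∀ e ∈ l, Ch (mk t (y n)) e.1 e.2.1 (e.2.2 + ε) :=
      (List.finite_toSet l).eventually_all.2 (hev ε hε)
    obtain ⟨n, hn⟩ := h5.exists
    rw [← hsum]
    refine hM n _ ?_ ?_
    · intro e he
      obtain ⟨e', he', rfl⟩ := List.mem_map.1 he
      exact hn e' he'
    · intro a ha b hb
      refine Relation.ReflTransGen.mono ?_ _ _ (hJ a ha b hb)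
      rintro c d ⟨r, hr | hr⟩
      · exact ⟨r + ε, Or.inl (List.mem_map.2 ⟨_, hr, rfl⟩)⟩
      · exact ⟨r + ε, Or.inr (List.mem_map.2 ⟨_, hr, rfl⟩)⟩
  refine le_of_forall_pos_le_add fun δ hδ => ?_
  have hpos : (0 : ℝ) < l.length + 1 := by positivity
  have h6 := hmain (δ / (l.length + 1)) (by positivity)
  have h7 : (l.length : ℝ) * (δ / (l.length + 1)) ≤ δ := by
    rw [← mul_div_assoc, div_le_iff₀ hpos]
    nlinarith
  linarith

end Pool.Agent.Lib.MP_9f84a9_co
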