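import Pool.Agent.Lib.MP_9f84a9_co.E.StmE
import Pool.Agent.Lib.MP_9f84a9_co.StmX

/-!
# MP_9f84a9_co, [E7]: continuity of the functionals
-/

set_option autoImplicit false

namespace Pool.Agent.Lib.MP_9f84a9_co

open Finset Filter Topology

/-- sums over lists of continuous functions -/
theorem e7_sumOn {X α : Type} [TopologicalSpace X] (l : List α) (F : α → X → ℝ) (s : Set X)
    (h : ∀ e ∈ l, ContinuousOn (F e) s) :
    ContinuousOn (fun x => (l.map fun e => F e x).sum) s := by
  induction l with
  | nil => simpa using continuousOn_const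
  | cons a l ih =>
    simp only [List.map_cons, List.sum_cons]
    exact (h a (by simp)).add (ih fun e he => h e (by simp [he]))

theorem e7_sum {X α : Type} [TopologicalSpace X] (l : List α) (F : α → X → ℝ)
    (h : ∀ e ∈ l, Continuous (F e)) : Continuous (fun x => (l.map fun e => F e x).sum) := by
  rw [← continuousOn_univ]
  exact e7_sumOn l F _ fun e he => (h e he).continuousOn

/-- sums over the pieces -/
theorem e7_mk {N k m : ℕ} (t : Fin m → SP N k) (y : Fin m → Dat N k) (G : Piece N → ℝ) :
    ((mk t y).map G).sum = ∑ j, G ((t j).real (y j)) := by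
  unfold mk
  rw [List.map_ofFn, List.sum_ofFn]
  rfl

theorem e7_ipt {N k : ℕ} (a : Fin N ⊕ Fin k) : Continuous (fun y : Dat N k => ipt y a) := by
  rcases a with v | i
  · exact continuous_const
  · exact (continuous_apply i).comp continuous_snd

theorem e7_pos {N : ℕ} {X : Type} [TopologicalSpace X] (p : X → Fin N → E) (x : X → Pt N)
    (hp : Continuous p) (hx : Continuous x) : Continuous (fun y => pos (p y) (x y)) := by
  unfold pos
  refine continuous_finsetSum _ fun v _ => ?_
  exact ((continuous_apply v).comp hx).smul ((continuous_apply v).comp hp)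

/-- continuity of the chain metric in the data -/
theorem e7_d (hA7 : S_A7) {N k : ℕ} (K : Cx N) (hK : Cn K) (a b : Fin N ⊕ Fin k)
    (s : Set (Dat N k)) (ha : ∀ y ∈ s, In K (ipt y a)) (hb : ∀ y ∈ s, In K (ipt y b)) :
    ContinuousOn (fun y => dK K (ce y.1) (ipt y a) (ipt y b)) s := by
  intro y₀ hy₀
  have h0 : ∀ᶠ y in 𝓝[s] y₀, y ∈ s := self_mem_nhdsWithin
  exact hA7 N K (Dat N k) (𝓝[s] y₀) (fun y => y.1) y₀.1 (fun y => ipt y a) (fun y => ipt y b)
    (ipt y₀ a) (ipt y₀ b) hK
    ((continuous_fst.tendsto y₀).mono_left nhdsWithin_le_nhds)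
    (((e7_ipt a).tendsto y₀).mono_left nhdsWithin_le_nhds)
    (((e7_ipt b).tendsto y₀).mono_left nhdsWithin_le_nhds)
    (h0.mono fun y hy => ha y hy) (h0.mono fun y hy => hb y hy) (ha y₀ hy₀) (hb y₀ hy₀)

/-- the ends of the edges are points of the disc -/
theorem e7_in (hA1 : S_A1) (hB4 : S_B4) (hX2 : S_X2) {N k : ℕ} {Cl : Finset ℕ} {P : ℝ}
    (t : SP N k) (y : Dat N k) (hok : (t.real y).ok Cl P) (e : (Fin N ⊕ Fin k) × (Fin N ⊕ Fin k))
    (he : e ∈ t.edges) : In t.D.K (ipt y e.1) ∧ In t.D.K (ipt y e.2) := by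
  obtain ⟨-, h2, -, -, -, -, h7, -⟩ := hX2 N k t y
  obtain ⟨h71, h72, h73, h74⟩ := h7 e he
  have hv : ∀ v ∈ (t.real y).lv, In t.D.K (vx v) := by
    intro v hv
    obtain ⟨f, hf, hvf⟩ := (hB4 N t.D hok.dok).2.1 v (hok.lvs v hv)
    exact ((hA1 N).2.2.2.2.1 _ f v hf hvf).1
  have hi : ∀ i ∈ t.names, In t.D.K (y.2 i) := by
    intro i hi
    apply hok.nods
    rw [h2]
    exact List.mem_map_of_mem hi
  constructor
  · rcases h : e.1 with v | i
    · exact hv v (h71 v h)
    · exact hi i (h73 i h)
  · rcases h : e.2 with v | i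
    · exact hv v (h72 v h)
    · exact hi i (h74 i h)

/-- the root does not depend on the data -/
theorem e7_fl {N k : ℕ} (s : SNet N k) (z z' : Fin k → Pt N) : (s.real z).fl = (s.real z').fl := by
  induction s with
  | leaf v => rfl
  | node i l r ihl _ => exact ihl

theorem e7_root {N k : ℕ} (t : SP N k) (y y' : Dat N k) :
    (t.real y).root = (t.real y').root := e7_fl t.T.1 y.2 y'.2

theorem e7_phi (R1 : ℝ) : Continuous (phi R1) := by
  unfold phi
  refine Continuous.if_le (by fun_prop) (by fun_prop) continuous_id continuous_const ?_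
  intro x hx
  rw [hx]
  ring

theorem e7_ar {N : ℕ} (a b w : Fin N) : Continuous (fun p : Fin N → E => ar (p a) (p b) (p w)) := by
  unfold ar
  fun_prop

theorem e7_PTI {N : ℕ} (P : PT N) : ∀ a b, Continuous (fun p : Fin N → E => PT.I p a b P) := by
  induction P with
  | nil => intro a b; exact continuous_const
  | node w l r ihl ihr =>
    intro a b
    simp only [PT.I]
    refine Continuous.add (Continuous.add (Continuous.mul (e7_ar a b w) ?_) (ihl a w)) (ihr w b)
    fun_prop

theorem e7_PTQ {N : ℕ} (P : PT N) : ∀ a b, Continuous (fun p : Fin N → E => PT.Q p a b P) := by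
  induction P with
  | nil => intro a b; exact continuous_const
  | node w l r ihl ihr =>
    intro a b
    simp only [PT.Q]
    refine Continuous.add (Continuous.add (Continuous.add ?_ ?_) (ihl a w)) (ihr w b)
    · fun_prop
    · fun_prop

theorem e7_DI {N : ℕ} (D : Dsc N) : Continuous (fun p : Fin N → E => D.I p) := by
  unfold Dsc.I
  exact (e7_PTI _ _ _).add (e7_PTI _ _ _)

theorem e7_DQ {N : ℕ} (D : Dsc N) : Continuous (fun p : Fin N → E => D.Q p) := by
  unfold Dsc.Q
  refine Continuous.add (Continuous.add ?_ (e7_PTQ _ _ _)) (e7_PTQ _ _ _)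
  fun_prop

theorem t_E7 (hA1 : S_A1) (hA7 : S_A7) (hB4 : S_B4) (hB5 : S_B5) (hX2 : S_X2) : S_E7 := by
  intro N k m Cl P R1 t hD
  refine ⟨?_, ?_, ?_, ?_⟩
  · have h1 : (fun y => Lc (mk t y)) = fun y : Fin m → Dat N k => ∑ j, ((t j).edges.map fun e =>
        dK (t j).D.K (ce (y j).1) (ipt (y j) e.1) (ipt (y j) e.2)).sum := by
      ext y
      unfold Lc
      rw [e7_mk]
      refine Finset.sum_congr rfl fun j _ => ?_
      rw [(hX2 N k (t j) (y j)).1]
      rfl
    rw [h1]
    refine continuousOn_finsetSum _ fun j _ => ?_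
    refine e7_sumOn _ _ _ fun e he => ?_
    have h2 := e7_d hA7 (t j).D.K (hB5 N (t j).D (hD j)) e.1 e.2
      ((fun y : Fin m → Dat N k => y j) '' (YY Cl P t)) (by
        rintro _ ⟨y, hy, rfl⟩
        refine (e7_in hA1 hB4 hX2 (t j) (y j) (hy.2.ok _ ?_) e he).1
        unfold mk
        rw [List.mem_ofFn]
        exact ⟨j, rfl⟩) (by
        rintro _ ⟨y, hy, rfl⟩
        refine (e7_in hA1 hB4 hX2 (t j) (y j) (hy.2.ok _ ?_) e he).2
        unfold mk
        rw [List.mem_ofFn]
        exact ⟨j, rfl⟩)
    exact h2.comp (continuous_apply j).continuousOn (Set.mapsTo_image _ _)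
  · have h1 : (fun y => Phi R1 (mk t y)) = fun y : Fin m → Dat N k => ∑ j,
        (((t j).D.vl.map fun v => phi R1 (dist ((y j).1 v) ((y j).1 ((t j).real 0).root))).sum +
        ((t j).names.map fun i => dist (pos (y j).1 ((y j).2 i))
          ((y j).1 ((t j).real 0).root) ^ 2).sum) := by
      ext y
      unfold Phi
      rw [e7_mk]
      refine Finset.sum_congr rfl fun j _ => ?_
      unfold Piece.Phi
      rw [(hX2 N k (t j) (y j)).2.1, e7_root (t j) (y j) 0, List.map_map]
      rfl
    rw [h1]
    refine continuous_finsetSum _ fun j _ => ?_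
    have hp : ∀ v, Continuous (fun y : Fin m → Dat N k => (y j).1 v) := fun v =>
      (continuous_apply v).comp (continuous_fst.comp (continuous_apply j))
    refine Continuous.add ?_ ?_
    · refine e7_sum _ _ fun v _ => ?_
      exact (e7_phi R1).comp ((hp v).dist (hp _))
    · refine e7_sum _ _ fun i _ => ?_
      refine Continuous.pow (Continuous.dist ?_ (hp _)) 2
      exact e7_pos _ _ (continuous_fst.comp (continuous_apply j))
        ((continuous_apply i).comp (continuous_snd.comp (continuous_apply j)))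
  · have h1 : (fun y => Ic (mk t y)) = fun y : Fin m → Dat N k => ∑ j,
        (t j).D.I (fun v => (y j).1 v - (y j).1 ((t j).real 0).root) := by
      ext y
      unfold Ic
      rw [e7_mk]
      refine Finset.sum_congr rfl fun j _ => ?_
      rw [e7_root (t j) (y j) 0]
      rfl
    rw [h1]
    refine continuous_finsetSum _ fun j _ => ?_
    refine (e7_DI (t j).D).comp (continuous_pi fun v => ?_)
    have hp : ∀ v, Continuous (fun y : Fin m → Dat N k => (y j).1 v) := fun v =>
      (continuous_apply v).comp (continuous_fst.comp (continuous_apply j))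
    exact (hp v).sub (hp _)
  · have h1 : (fun y => Qc (mk t y)) = fun y : Fin m → Dat N k => ∑ j, (t j).D.Q (y j).1 := by
      ext y
      unfold Qc
      rw [e7_mk]
      rfl
    rw [h1]
    refine continuous_finsetSum _ fun j _ => ?_
    exact (e7_DQ (t j).D).comp (continuous_fst.comp (continuous_apply j))

end Pool.Agent.Lib.MP_9f84a9_co
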