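import Pool.Agent.Lib.MP_9f84a9_co.StmE
import Pool.Agent.Lib.MP_9f84a9_co.StmX

/-!
# MP_9f84a9_co, [E7]: continuity of the length of the network (statement file `StmE`)
-/

set_option autoImplicit false

namespace Pool.Agent.Lib.MP_9f84a9_co

open Finset Filter Topology

namespace E67

/-- sums over lists of continuous functions -/
theorem e7_sumOn {X α : Type} [TopologicalSpace X] (l : List α) (F : α → X → ℝ) (s : Set X)
    (h : ∀ e ∈ l, ContinuousOn (F e) s) :
    ContinuousOn (fun x => (l.map fun e => F e x).sum) s := by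
  induction l with
  | nil => simpa using continuousOn_const
  | cons a l ih =>
    simp only [List.map_cons, List.sum_cons]
    exact (h a (by simp)).add (ih fun e he => h e (by simp [he]))

theorem e7_ipt {N k : ℕ} (a : Fin N ⊕ Fin k) : Continuous (fun y : Dat N k => ipt y a) := by
  rcases a with v | i
  · exact continuous_const
  · exact (continuous_apply i).comp continuous_snd

/-- continuity of the chain metric in the data -/
theorem e7_d (hA7 : S_A7) {N k : ℕ} (K : Cx N) (hK : Cn K) (a b : Fin N ⊕ Fin k)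
    (s : Set (Dat N k)) (ha : ∀ y ∈ s, In K (ipt y a)) (hb : ∀ y ∈ s, In K (ipt y b)) :
    ContinuousOn (fun y => dK K (ce y.1) (ipt y a) (ipt y b)) s := by
  intro y₀ hy₀
  have h0 : ∀ᶠ y in 𝓝[s] y₀, y ∈ s := self_mem_nhdsWithin
  exact hA7 N K (Dat N k) (𝓝[s] y₀) (fun y => y.1) y₀.1 (fun y => ipt y a) (fun y => ipt y b)
    (ipt y₀ a) (ipt y₀ b) hK
    ((continuous_fst.tendsto y₀).mono_left nhdsWithin_le_nhds)
    (((e7_ipt a).tendsto y₀).mono_left nhdsWithin_le_nhds)
    (((e7_ipt b).tendsto y₀).mono_left nhdsWithin_le_nhds)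
    (h0.mono fun y hy => ha y hy) (h0.mono fun y hy => hb y hy) (ha y₀ hy₀) (hb y₀ hy₀)

/-- the ends of the edges are points of the disc -/
theorem e7_in (hA1 : S_A1) (hB4 : S_B4) (hX2 : S_X2) {N k : ℕ} {Cl : Finset ℕ} {P : ℝ}
    (t : SP N k) (y : Dat N k) (hok : (t.real y).ok Cl P) (e : (Fin N ⊕ Fin k) × (Fin N ⊕ Fin k))
    (he : e ∈ t.edges) : In t.D.K (ipt y e.1) ∧ In t.D.K (ipt y e.2) := by
  obtain ⟨-, h2, -, -, -, -, h7, -⟩ := hX2 N k t y
  obtain ⟨h71, h72, h73, h74⟩ := h7 e he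
  have hv : ∀ v ∈ (t.real y).lv, In t.D.K (vx v) := by
    intro v hv
    obtain ⟨f, hf, hvf⟩ := (hB4 N t.D hok.dok).2.1 v (hok.lvs v hv)
    exact ((hA1 N).2.2.2.2.1 _ f v hf hvf).1
  have hi : ∀ i ∈ t.names, In t.D.K (y.2 i) := by
    intro i hi
    apply hok.nods
    rw [h2]
    exact List.mem_map_of_mem hi
  constructor
  · rcases h : e.1 with v | i
    · exact hv v (h71 v h)
    · exact hi i (h73 i h)
  · rcases h : e.2 with v | i
    · exact hv v (h72 v h)
    · exact hi i (h74 i h)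

end E67

open E67 in
theorem t_E7 (hA1 : S_A1) (hA7 : S_A7) (hB4 : S_B4) (hB5 : S_B5) (hX2 : S_X2) : S_E7 := by
  intro N k Cl P t y₀ hy₀
  have hD : t.D.ok := Piece.ok.dok hy₀
  have h1 : (fun y : Dat N k => (t.real y).L) = fun y => (t.edges.map fun e =>
      dK t.D.K (ce y.1) (ipt y e.1) (ipt y e.2)).sum := by
    ext y
    rw [(hX2 N k t y).1]
    rfl
  have h2 : ContinuousOn (fun y : Dat N k => (t.real y).L) {y | (t.real y).ok Cl P} := by
    rw [h1]
    refine e7_sumOn _ _ _ fun e he => ?_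
    exact e7_d hA7 t.D.K (hB5 N t.D hD) e.1 e.2 _
      (fun y hy => (e7_in hA1 hB4 hX2 t y hy e he).1)
      (fun y hy => (e7_in hA1 hB4 hX2 t y hy e he).2)
  exact h2 y₀ hy₀

end Pool.Agent.Lib.MP_9f84a9_co
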