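import Pool.Agent.Lib.MP_9f84a9_co.E.E7

/-!
# MP_9f84a9_co, [E8]: compactness
-/

set_option autoImplicit false

namespace Pool.Agent.Lib.MP_9f84a9_co

open Finset Filter Topology

theorem e8_box (N k : ℕ) (P : ℝ) : IsCompact (Box N k P) := by
  have h : Box N k P = (Set.univ.pi fun _ : Fin N => Metric.closedBall (0 : E) P) ×ˢ
      (Set.univ.pi fun _ : Fin k => Set.univ.pi fun _ : Fin N => Set.Icc (0 : ℝ) 1) := by
    ext y
    simp only [Box, Set.mem_prod, Set.mem_pi, Set.mem_univ, true_implies, Metric.mem_closedBall,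
      dist_zero_right, Set.mem_Icc, Set.mem_ofPred_eq]
  rw [h]
  exact (isCompact_univ_pi fun _ => isCompact_closedBall _ _).prod
    (isCompact_univ_pi fun _ => isCompact_univ_pi fun _ => isCompact_Icc)

theorem e8_in {N : ℕ} (K : Cx N) : IsClosed {x : Pt N | In K x} := by
  have h : {x : Pt N | In K x} = {x | ∀ v, 0 ≤ x v} ∩ ({x | ∑ v, x v = 1} ∩
      ⋃ f ∈ K, {x : Pt N | ∀ v, v ∉ f → x v = 0}) := by
    ext x
    simp [In, Sup]
  rw [h]
  refine IsClosed.inter ?_ (IsClosed.inter ?_ ?_)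
  · have : {x : Pt N | ∀ v, 0 ≤ x v} = ⋂ v, {x | 0 ≤ x v} := by ext x; simp
    rw [this]
    exact isClosed_iInter fun v => isClosed_le continuous_const (continuous_apply v)
  · exact isClosed_eq (continuous_finsetSum _ fun v _ => continuous_apply v) continuous_const
  · refine Set.Finite.isClosed_biUnion (Finset.finite_toSet K) fun f _ => ?_
    have : {x : Pt N | ∀ v, v ∉ f → x v = 0} = ⋂ v, ⋂ (_ : v ∉ f), {x | x v = 0} := by
      ext x; simp
    rw [this]
    exact isClosed_iInter fun v => isClosed_iInter fun _ =>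
      isClosed_eq (continuous_apply v) continuous_const

theorem e8_wposP {N : ℕ} (P : PT N) : ∀ a b, IsClosed {p : Fin N → E | PT.WPos p a b P} := by
  induction P with
  | nil => intro a b; simp [PT.WPos]
  | node w l r ihl ihr =>
    intro a b
    have h : {p : Fin N → E | PT.WPos p a b (PT.node w l r)} =
        {p | 0 ≤ ar (p a) (p b) (p w)} ∩ ({p | PT.WPos p a w l} ∩ {p | PT.WPos p w b r}) := rfl
    rw [h]
    exact (isClosed_le continuous_const (e7_ar a b w)).inter ((ihl a w).inter (ihr w b))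

theorem e8_wpos {N : ℕ} (D : Dsc N) : IsClosed {p : Fin N → E | D.WPos p} :=
  (e8_wposP D.P D.a D.b).inter (e8_wposP D.R D.b D.a)

theorem e8_ok (hX2 : S_X2) {N k : ℕ} (Cl : Finset ℕ) (P : ℝ) (t : SP N k) :
    IsClosed {y : Dat N k | (t.real y).ok Cl P} := by
  have h : {y : Dat N k | (t.real y).ok Cl P} =
      {_y | t.D.ok ∧ (∀ v, t.lab v ∈ Cl) ∧ ∀ v ∈ t.T.1.leaves ++ t.T.2.leaves, v ∈ t.D.vl} ∩
      ({y | t.D.WPos y.1} ∩ ((⋂ i, ⋂ (_ : i ∈ t.names), {y | In t.D.K (y.2 i)}) ∩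
      ⋂ v, ⋂ (_ : v ∈ t.D.vl), ⋂ w, ⋂ (_ : w ∈ t.D.vl), {y | dist (y.1 v) (y.1 w) ≤ P})) := by
    ext y
    simp only [Set.mem_inter_iff, Set.mem_iInter, Set.mem_ofPred_eq]
    constructor
    · intro hy
      refine ⟨⟨hy.dok, hy.labs, ?_⟩, hy.wpos, ?_, fun v hv w hw => hy.diam v hv w hw⟩
      · intro v hv
        exact hy.lvs v (by rw [(hX2 N k t y).2.2.1]; exact hv)
      · intro i hi
        apply hy.nods
        rw [(hX2 N k t y).2.1]
        exact List.mem_map_of_mem hi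
    · rintro ⟨⟨h1, h2, h3⟩, h4, h5, h6⟩
      refine ⟨h1, h4, h2, ?_, ?_, fun v hv w hw => h6 v hv w hw⟩
      · intro z hz
        rw [(hX2 N k t y).2.1] at hz
        obtain ⟨i, hi, rfl⟩ := List.mem_map.1 hz
        exact h5 i hi
      · intro v hv
        rw [(hX2 N k t y).2.2.1] at hv
        exact h3 v hv
  rw [h]
  refine isClosed_const.inter (IsClosed.inter ?_ (IsClosed.inter ?_ ?_))
  · exact (e8_wpos t.D).preimage continuous_fst
  · refine isClosed_iInter fun i => isClosed_iInter fun _ => ?_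
    have hc : Continuous (fun y : Dat N k => y.2 i) := (continuous_apply i).comp continuous_snd
    exact (e8_in t.D.K).preimage hc
  · refine isClosed_iInter fun v => isClosed_iInter fun _ => isClosed_iInter fun w =>
      isClosed_iInter fun _ => ?_
    exact isClosed_le (((continuous_apply v).comp continuous_fst).dist
      ((continuous_apply w).comp continuous_fst)) continuous_const

theorem e8_mem {N k m : ℕ} (t : Fin m → SP N k) (y : Fin m → Dat N k) (q : Piece N) :
    q ∈ mk t y ↔ ∃ j, (t j).real (y j) = q := by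
  unfold mk
  rw [List.mem_ofFn]

theorem e8_Hst (hX2 : S_X2) {N k m : ℕ} (t : Fin m → SP N k) (y : Fin m → Dat N k) (a b : ℕ) :
    Hst (mk t y) a b ↔ ∃ j, a ∈ ((t j).T.1.leaves ++ (t j).T.2.leaves).map (t j).lab ∧
      b ∈ ((t j).T.1.leaves ++ (t j).T.2.leaves).map (t j).lab := by
  unfold Hst
  constructor
  · rintro ⟨q, hq, ha, hb⟩
    obtain ⟨j, rfl⟩ := (e8_mem t y q).1 hq
    rw [(hX2 N k (t j) (y j)).2.2.1] at ha hb
    exact ⟨j, ha, hb⟩
  · rintro ⟨j, ha, hb⟩
    refine ⟨_, (e8_mem t y _).2 ⟨j, rfl⟩, ?_⟩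
    rw [(hX2 N k (t j) (y j)).2.2.1]
    exact ⟨ha, hb⟩

theorem e8_HJ (hX2 : S_X2) {N k m : ℕ} (t : Fin m → SP N k) (y y' : Fin m → Dat N k) (a b : ℕ)
    (h : HJ (mk t y) a b) : HJ (mk t y') a b := by
  have h1 : ∀ x z, Hst (mk t y) x z → Hst (mk t y') x z := fun x z hxz =>
    (e8_Hst hX2 t y' x z).2 ((e8_Hst hX2 t y x z).1 hxz)
  unfold HJ at h ⊢
  induction h with
  | refl => exact Relation.ReflTransGen.refl
  | tail _ h2 ih => exact ih.tail (h1 _ _ h2)

theorem e8_cnt (hX2 : S_X2) {N k m : ℕ} (t : Fin m → SP N k) (y : Fin m → Dat N k) :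
    ((mk t y).map fun q => q.lv.length - 1).sum =
      ∑ j, (((t j).T.1.leaves ++ (t j).T.2.leaves).length - 1) := by
  unfold mk
  rw [List.map_ofFn, List.sum_ofFn]
  refine Finset.sum_congr rfl fun j _ => ?_
  show ((t j).real (y j)).lv.length - 1 = _
  rw [(hX2 N k (t j) (y j)).2.2.1]

theorem t_E8 (hA1 : S_A1) (hA7 : S_A7) (hB4 : S_B4) (hB5 : S_B5) (hX2 : S_X2)
    (hmst : S_mst) : S_E8 := by
  intro N k m Cl P t hD
  by_cases hc : (∀ a ∈ Cl, ∀ b ∈ Cl, HJ (mk t (0 : Fin m → Dat N k)) a b) ∧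
      ((mk t (0 : Fin m → Dat N k)).map fun q => q.lv.length - 1).sum + 1 ≤ Cl.card
  swap
  · have h : YY Cl P t = ∅ := by
      ext y
      simp only [Set.mem_empty_iff_false, iff_false]
      intro hy
      apply hc
      refine ⟨fun a ha b hb => e8_HJ hX2 t y 0 a b (hy.2.conn a ha b hb), ?_⟩
      rw [e8_cnt hX2, ← e8_cnt hX2 t y]
      exact hy.2.cnt
    rw [h]
    exact isCompact_empty
  -- the admissible data without the condition on spanning sets
  let AB : Set (Fin m → Dat N k) := {y | (∀ j, y j ∈ Box N k P) ∧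
    ∀ j, ((t j).real (y j)).ok Cl P}
  have hAB : IsCompact AB := by
    have h1 : IsCompact (Set.univ.pi fun _ : Fin m => Box N k P) :=
      isCompact_univ_pi fun _ => e8_box N k P
    have h2 : IsClosed (⋂ j : Fin m, {y : Fin m → Dat N k | ((t j).real (y j)).ok Cl P}) :=
      isClosed_iInter fun j => by
        have hc : Continuous (fun y : Fin m → Dat N k => y j) := continuous_apply j
        exact (e8_ok hX2 Cl P (t j)).preimage hc
    have h3 : AB = (Set.univ.pi fun _ : Fin m => Box N k P) ∩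
        ⋂ j : Fin m, {y : Fin m → Dat N k | ((t j).real (y j)).ok Cl P} := by
      ext y
      simp [AB, Set.mem_pi]
    rw [h3]
    exact h1.inter_right h2
  have hcl : ∀ X : Finset (Fin m × Fin N × Fin N),
      X ⊆ chs (fun j => (t j).real ((0 : Fin m → Dat N k) j)) →
      ContinuousOn (fun y : Fin m → Dat N k => ∑ c ∈ X, cl (fun j => (t j).real (y j)) c) AB := by
    intro X hX
    refine continuousOn_finsetSum _ fun c hc' => ?_
    have h4 := hX hc'
    simp only [chs, Finset.mem_filter, Finset.mem_univ, true_and] at h4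
    have hv : ∀ v ∈ (t c.1).D.vl, In (t c.1).D.K (vx v) := by
      intro v hv
      obtain ⟨f, hf, hvf⟩ := (hB4 N (t c.1).D (hD c.1)).2.1 v hv
      exact ((hA1 N).2.2.2.2.1 _ f v hf hvf).1
    have h5 := e7_d hA7 (k := k) (t c.1).D.K (hB5 N (t c.1).D (hD c.1)) (Sum.inl c.2.1)
      (Sum.inl c.2.2) Set.univ (fun _ _ => hv _ h4.2.1) (fun _ _ => hv _ h4.2.2)
    exact h5.comp (continuous_apply c.1).continuousOn (fun _ _ => Set.mem_univ _)
  have hYY : YY Cl P t = AB ∩ ⋂ X : Finset (Fin m × Fin N × Fin N),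
      ⋂ (_ : X ⊆ chs (fun j => (t j).real ((0 : Fin m → Dat N k) j)) ∧
        JX Cl (fun j => (t j).real ((0 : Fin m → Dat N k) j)) X),
      (AB ∩ (fun y : Fin m → Dat N k => ∑ c ∈ X, cl (fun j => (t j).real (y j)) c) ⁻¹'
        Set.Ici 1) := by
    ext y
    simp only [Set.mem_inter_iff, Set.mem_iInter, Set.mem_preimage, Set.mem_Ici]
    constructor
    · intro hy
      have hok : ∀ j, ((t j).real (y j)).ok Cl P := fun j =>
        hy.2.ok _ ((e8_mem t y _).2 ⟨j, rfl⟩)
      have hyAB : y ∈ AB := ⟨hy.1, hok⟩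
      refine ⟨hyAB, fun X hX => ⟨hyAB, ?_⟩⟩
      exact (hmst N m Cl P (fun j => (t j).real (y j)) hok 1).1 hy.2.mst X hX.1 hX.2
    · rintro ⟨hyAB, hX⟩
      refine ⟨hyAB.1, ?_, ?_, ?_, ?_⟩
      · intro q hq
        obtain ⟨j, rfl⟩ := (e8_mem t y q).1 hq
        exact hyAB.2 j
      · intro a ha b hb
        exact e8_HJ hX2 t 0 y a b (hc.1 a ha b hb)
      · rw [e8_cnt hX2, ← e8_cnt hX2 t 0]
        exact hc.2
      · exact (hmst N m Cl P (fun j => (t j).real (y j)) hyAB.2 1).2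
          fun X h1 h2 => (hX X ⟨h1, h2⟩).2
  rw [hYY]
  refine hAB.inter_right (isClosed_iInter fun X => isClosed_iInter fun hX => ?_)
  exact (hcl X hX.1).preimage_isClosed_of_isClosed hAB.isClosed isClosed_Ici

end Pool.Agent.Lib.MP_9f84a9_co
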