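import Pool.Agent.Lib.MP_9f84a9_co.StmE

/-!
# MP_9f84a9_co, piece E8 of the root `StmE` (helper87): `Phi`, `I`, `Q` are continuous in the data
-/

set_option autoImplicit false

namespace Pool.Agent.Lib.MP_9f84a9_co

open Finset Filter Topology

namespace E8b

/-- finite sums over lists of continuous functions -/
theorem sum {X α : Type} [TopologicalSpace X] (l : List α) (F : α → X → ℝ)
    (h : ∀ e ∈ l, Continuous (F e)) : Continuous (fun x => (l.map fun e => F e x).sum) := by
  induction l with
  | nil => simpa using continuous_const
  | cons a l ih =>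
    simp only [List.map_cons, List.sum_cons]
    exact (h a (by simp)).add (ih fun e he => h e (by simp [he]))

theorem cpos {N : ℕ} {X : Type} [TopologicalSpace X] (p : X → Fin N → E) (x : X → Pt N)
    (hp : Continuous p) (hx : Continuous x) : Continuous (fun y => pos (p y) (x y)) := by
  unfold pos
  refine continuous_finsetSum _ fun v _ => ?_
  exact ((continuous_apply v).comp hx).smul ((continuous_apply v).comp hp)

/-- the root does not depend on the data -/
theorem fl {N k : ℕ} (s : SNet N k) (z z' : Fin k → Pt N) : (s.real z).fl = (s.real z').fl := by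
  induction s with
  | leaf v => rfl
  | node i l r ihl _ => exact ihl

theorem root {N k : ℕ} (t : SP N k) (y y' : Dat N k) :
    (t.real y).root = (t.real y').root := fl t.T.1 y.2 y'.2

theorem nodes {N k : ℕ} (s : SNet N k) (z : Fin k → Pt N) :
    (s.real z).nodes = s.names.map z := by
  induction s with
  | leaf v => rfl
  | node i l r ihl ihr => simp [SNet.real, Net.nodes, SNet.names, ihl, ihr]

theorem cphi (R1 : ℝ) : Continuous (phi R1) := by
  unfold phi
  refine Continuous.if_le (by fun_prop) (by fun_prop) continuous_id continuous_const ?_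
  intro x hx
  rw [hx]
  ring

theorem car {N : ℕ} (a b w : Fin N) : Continuous (fun p : Fin N → E => ar (p a) (p b) (p w)) := by
  unfold ar
  fun_prop

theorem cPTI {N : ℕ} (P : PT N) : ∀ a b, Continuous (fun p : Fin N → E => PT.I p a b P) := by
  induction P with
  | nil => intro a b; exact continuous_const
  | node w l r ihl ihr =>
    intro a b
    simp only [PT.I]
    refine Continuous.add (Continuous.add (Continuous.mul (car a b w) ?_) (ihl a w)) (ihr w b)
    fun_prop

theorem cPTQ {N : ℕ} (P : PT N) : ∀ a b, Continuous (fun p : Fin N → E => PT.Q p a b P) := by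
  induction P with
  | nil => intro a b; exact continuous_const
  | node w l r ihl ihr =>
    intro a b
    simp only [PT.Q]
    refine Continuous.add (Continuous.add (Continuous.add ?_ ?_) (ihl a w)) (ihr w b)
    · fun_prop
    · fun_prop

theorem cDI {N : ℕ} (D : Dsc N) : Continuous (fun p : Fin N → E => D.I p) := by
  unfold Dsc.I
  exact (cPTI _ _ _).add (cPTI _ _ _)

theorem cDQ {N : ℕ} (D : Dsc N) : Continuous (fun p : Fin N → E => D.Q p) := by
  unfold Dsc.Q
  refine Continuous.add (Continuous.add ?_ (cPTQ _ _ _)) (cPTQ _ _ _)
  fun_prop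

end E8b

open E8b in
theorem t_E8 : S_E8 := by
  intro N k R1 t
  have hp : ∀ v, Continuous (fun y : Dat N k => y.1 v) := fun v =>
    (continuous_apply v).comp continuous_fst
  refine ⟨?_, ?_, (cDQ t.D).comp continuous_fst⟩
  · have h1 : (fun y : Dat N k => (t.real y).Phi R1) = fun y : Dat N k =>
        ((t.D.vl.map fun v => phi R1 (dist (y.1 v) (y.1 (t.real 0).root))).sum +
        ((t.T.1.names ++ t.T.2.names).map fun i =>
          dist (pos y.1 (y.2 i)) (y.1 (t.real 0).root) ^ 2).sum) := by
      ext y
      have h2 : (t.real y).nd = (t.T.1.names ++ t.T.2.names).map y.2 := by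
        show (t.T.1.real y.2).nodes ++ (t.T.2.real y.2).nodes = _
        rw [nodes, nodes, List.map_append]
      unfold Piece.Phi
      rw [h2, root t y 0, List.map_map]
      rfl
    rw [h1]
    refine Continuous.add ?_ ?_
    · exact sum _ _ fun v _ => (cphi R1).comp ((hp v).dist (hp _))
    · refine sum _ _ fun i _ => ?_
      refine Continuous.pow (Continuous.dist ?_ (hp _)) 2
      exact cpos _ _ continuous_fst ((continuous_apply i).comp continuous_snd)
  · have h1 : (fun y : Dat N k => t.D.I (fun v => y.1 v - y.1 (t.real y).root)) =
        fun y : Dat N k => t.D.I (fun v => y.1 v - y.1 (t.real 0).root) := by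
      ext y
      rw [root t y 0]
    rw [h1]
    exact (cDI t.D).comp (continuous_pi fun v => (hp v).sub (hp _))

end Pool.Agent.Lib.MP_9f84a9_co
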