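import Pool.Agent.Lib.MP_9f84a9_co.E.StmE

/-!
# MP_9f84a9_co, [E9]: one minimisation step over a finite family of compact sets
-/

set_option autoImplicit false

namespace Pool.Agent.Lib.MP_9f84a9_co

open Finset Filter Topology

theorem t_E9 : S_E9 := by
  classical
  intro ι _ Y _ _ C f hC hf hne
  have h1 : ∀ i, (C i).Nonempty → ∃ y ∈ C i, ∀ z ∈ C i, f i y ≤ f i z := by
    intro i hi
    obtain ⟨y, hy, hmin⟩ := (hC i).exists_isMinOn hi (hf i)
    exact ⟨y, hy, fun z hz => hmin hz⟩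
  choose g hg hg' using h1
  obtain ⟨i₀, hi₀, hmin⟩ := Set.exists_min_image {i | (C i).Nonempty}
    (fun i => if h : (C i).Nonempty then f i (g i h) else 0) (Set.toFinite _) hne
  have hi₀' : (C i₀).Nonempty := hi₀
  refine ⟨f i₀ (g i₀ hi₀'), ?_, ⟨i₀, g i₀ hi₀', hg i₀ hi₀', Set.mem_ofPred.2 (le_refl _)⟩, ?_⟩
  · intro i y hy
    have hi : (C i).Nonempty := ⟨y, hy⟩
    have h2 := hmin i hi
    simp only [dif_pos hi₀', dif_pos hi] at h2
    exact h2.trans (hg' i hi y hy)
  · intro i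
    have h3 : IsClosed (C i ∩ f i ⁻¹' Set.Iic (f i₀ (g i₀ hi₀'))) :=
      (hf i).preimage_isClosed_of_isClosed (hC i).isClosed isClosed_Iic
    exact (hC i).of_isClosed_subset h3 Set.inter_subset_left

end Pool.Agent.Lib.MP_9f84a9_co
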