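import Pool.Agent.Lib.MP_9f84a9_co.StmE

/-!
# MP_9f84a9_co, piece E9 of the root `StmE` (helper87): pieces with the same intrinsic data
-/

set_option autoImplicit false

namespace Pool.Agent.Lib.MP_9f84a9_co

open Finset Filter Topology

namespace E9b

theorem mapEq {α β : Type} {R : α → α → Prop} {l l' : List α} (f : α → β)
    (h : List.Forall₂ R l l') (hf : ∀ a b, R a b → f b = f a) : l'.map f = l.map f := by
  induction h with
  | nil => rfl
  | cons h1 _ ih => simp only [List.map_cons, ih, hf _ _ h1]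

theorem mem1 {α : Type} {R : α → α → Prop} {l l' : List α} (h : List.Forall₂ R l l') :
    ∀ b ∈ l', ∃ a ∈ l, R a b := by
  induction h with
  | nil => intro b hb; simp at hb
  | cons h1 _ ih =>
    intro b hb
    rcases List.mem_cons.1 hb with rfl | h3
    · exact ⟨_, by simp, h1⟩
    · obtain ⟨a, ha, hR⟩ := ih b h3
      exact ⟨a, by simp [ha], hR⟩

theorem mem2 {α : Type} {R : α → α → Prop} {l l' : List α} (h : List.Forall₂ R l l') :
    ∀ a ∈ l, ∃ b ∈ l', R a b := by
  induction h with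
  | nil => intro b hb; simp at hb
  | cons h1 _ ih =>
    intro b hb
    rcases List.mem_cons.1 hb with rfl | h3
    · exact ⟨_, by simp, h1⟩
    · obtain ⟨a, ha, hR⟩ := ih b h3
      exact ⟨a, by simp [ha], hR⟩

end E9b

open E9b in
theorem t_E9 : S_E9 := by
  intro N Cl P R1 S S' hF hS
  have hlv : ∀ q q' : Piece N, q'.T = q.T → q'.lv = q.lv := by
    intro q q' h
    unfold Piece.lv
    rw [h]
  refine ⟨⟨?_, ?_, ?_, ?_⟩, ?_, ?_, ?_, ?_, ?_⟩
  · intro q' hq'
    obtain ⟨q, -, h⟩ := mem1 hF q' hq'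
    exact h.2.2.2.1
  · intro a ha b hb
    have h1 : ∀ x y, Hst S x y → Hst S' x y := by
      rintro x y ⟨q, hq, hx, hy⟩
      obtain ⟨q', hq', h⟩ := mem2 hF q hq
      refine ⟨q', hq', ?_, ?_⟩
      · rw [hlv _ _ h.2.2.1, h.2.1]; exact hx
      · rw [hlv _ _ h.2.2.1, h.2.1]; exact hy
    exact Relation.ReflTransGen.mono h1 _ _ (hS.conn a ha b hb)
  · have h1 : (S'.map fun q => q.lv.length - 1) = S.map fun q => q.lv.length - 1 :=
      mapEq _ hF fun q q' h => by simp only [hlv _ _ h.2.2.1]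
    rw [h1]
    exact hS.cnt
  · intro l hl hJ
    refine hS.mst l (fun t ht => ?_) hJ
    obtain ⟨q', hq', v, hv, w, hw, h1, h2, h3⟩ := hl t ht
    obtain ⟨q, hq, h⟩ := mem1 hF q' hq'
    rw [h.1] at hv hw
    rw [h.2.1] at h1 h2
    rw [h.2.2.2.2.1] at h3
    exact ⟨q, hq, v, hv, w, hw, h1, h2, h3⟩
  · exact congrArg List.sum (mapEq Piece.L hF fun q q' h => h.2.2.2.2.2.1)
  · refine congrArg List.sum (mapEq _ hF fun q q' h => ?_)
    rw [hlv _ _ h.2.2.1, h.1]
  · exact congrArg List.sum (mapEq (Piece.Phi R1) hF fun q q' h => h.2.2.2.2.2.2.1)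
  · exact congrArg List.sum (mapEq (fun q : Piece N => q.D.I (fun v => q.p v - q.p q.root)) hF
      fun q q' h => h.2.2.2.2.2.2.2.1)
  · exact congrArg List.sum (mapEq (fun q : Piece N => q.D.Q q.p) hF
      fun q q' h => h.2.2.2.2.2.2.2.2)

end Pool.Agent.Lib.MP_9f84a9_co
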