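import Pool.Agent.Lib.MP_9f84a9_co.StmE

/-!
# MP_9f84a9_co, module E: existence of the extremal configuration (section 2)
-/

set_option autoImplicit false

namespace Pool.Agent.Lib.MP_9f84a9_co

open Finset Filter Topology

namespace ECmp

theorem forall₂_of {α : Type} (R : α → α → Prop) (S : List α) (h : ∀ q ∈ S, ∃ q', R q q') :
    ∃ S', List.Forall₂ R S S' := by
  induction S with
  | nil => exact ⟨[], List.Forall₂.nil⟩
  | cons a l ih =>
    obtain ⟨a', ha⟩ := h a (by simp)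
    obtain ⟨l', hl⟩ := ih fun q hq => h q (by simp [hq])
    exact ⟨a' :: l', List.Forall₂.cons ha hl⟩

theorem forall₂_mem {α : Type} (R : α → α → Prop) (S S' : List α) (h : List.Forall₂ R S S') :
    ∀ q' ∈ S', ∃ q ∈ S, R q q' := by
  induction h with
  | nil => intro q' hq'; simp at hq'
  | cons h1 _ ih =>
    intro q' hq'
    rcases List.mem_cons.1 hq' with rfl | h3
    · exact ⟨_, by simp, h1⟩
    · obtain ⟨q, hq, hR⟩ := ih q' h3
      exact ⟨q, by simp [hq], hR⟩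

theorem le_sum_of_mem {α : Type} (l : List α) (f : α → ℕ) (a : α) (ha : a ∈ l) :
    f a ≤ (l.map f).sum := by
  induction l with
  | nil => simp at ha
  | cons b l ih =>
    simp only [List.map_cons, List.sum_cons]
    rcases List.mem_cons.1 ha with rfl | h
    · omega
    · have := ih h
      omega

theorem length_le_sum {α : Type} (l : List α) (f : α → ℕ) (h : ∀ a ∈ l, 1 ≤ f a) :
    l.length ≤ (l.map f).sum := by
  induction l with
  | nil => simp
  | cons b l ih =>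
    simp only [List.map_cons, List.sum_cons, List.length_cons]
    have h1 := h b (by simp)
    have h2 := ih fun a ha => h a (by simp [ha])
    omega

variable {N k : ℕ}

theorem lv_len (hE0 : S_E0) (q : Piece N) : 2 ≤ q.lv.length := by
  have h1 := (hE0 N 0).1 q.T.1
  have h2 := (hE0 N 0).1 q.T.2
  simp only [Piece.lv, List.length_append]
  omega

theorem nd_len (hE0 : S_E0) (q : Piece N) :
    (q.T.1.nodes ++ q.T.2.nodes).length + 2 = q.lv.length := by
  have h1 := (hE0 N 0).1 q.T.1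
  have h2 := (hE0 N 0).1 q.T.2
  simp only [Piece.lv, List.length_append]
  omega

theorem real_lv (hE0 : S_E0) (t : SP N k) (y : Dat N k) :
    (t.real y).lv = t.T.1.leaves ++ t.T.2.leaves := by
  show (t.T.1.real y.2).leaves ++ (t.T.2.real y.2).leaves = _
  rw [(hE0 N k).2.2.1, (hE0 N k).2.2.1]

/-- a piece in normal position is the realisation of a type -/
theorem exists_type (hE0 : S_E0) (hE3 : S_E3) (Cl : Finset ℕ) (P : ℝ) (q : Piece N)
    (hq : q.ok Cl P) (hb : ∀ v, ‖q.p v‖ ≤ P) (hl : q.lv.length ≤ Cl.card) :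
    ∃ (t : Gd N Cl.card Cl.card Cl) (y : Dat N Cl.card), y ∈ Box N Cl.card P ∧
      t.1.real y = q := by
  have h1 := nd_len hE0 q
  obtain ⟨T', z, hT, hz⟩ := hE3 N Cl.card q.T (by omega) (by
    intro z hz v
    obtain ⟨h0, hs, -⟩ := hq.nods z hz
    refine ⟨h0 v, ?_⟩
    rw [← hs]
    exact Finset.single_le_sum (fun i _ => h0 i) (Finset.mem_univ v))
  have hreal : SP.real ⟨q.D, q.lab, T'⟩ (q.p, z) = q := by
    show Piece.mk q.D q.p q.lab (T'.1.real z, T'.2.real z) = q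
    rw [hT]
  refine ⟨⟨⟨q.D, q.lab, T'⟩, hq.dok, hq.labs, ?_⟩, (q.p, z), ⟨hb, hz⟩, hreal⟩
  show (T'.1.leaves ++ T'.2.leaves).length ≤ Cl.card
  have h2 := real_lv hE0 ⟨q.D, q.lab, T'⟩ (q.p, z)
  rw [hreal] at h2
  rw [← h2]
  exact hl

theorem hj_congr (hE0 : S_E0) {m : ℕ} (t : Fin m → SP N k) (y y' : Fin m → Dat N k) (a b : ℕ)
    (h : HJ (mk t y) a b) : HJ (mk t y') a b := by
  refine Relation.ReflTransGen.mono ?_ _ _ h
  rintro c d ⟨q, hq, h1, h2⟩
  obtain ⟨j, rfl⟩ := (List.mem_ofFn' _ _).1 hq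
  refine ⟨(t j).real (y' j), (List.mem_ofFn' _ _).2 ⟨j, rfl⟩, ?_, ?_⟩
  · rw [real_lv hE0] at h1 ⊢
    exact h1
  · rw [real_lv hE0] at h2 ⊢
    exact h2

theorem map_mk {m : ℕ} {β : Type} (t : Fin m → SP N k) (y : Fin m → Dat N k) (f : Piece N → β) :
    (mk t y).map f = List.ofFn fun j => f ((t j).real (y j)) := by
  unfold mk
  rw [List.map_ofFn]
  rfl

theorem cnt_congr (hE0 : S_E0) {m : ℕ} (t : Fin m → SP N k) (y y' : Fin m → Dat N k) :
    ((mk t y).map fun q => q.lv.length - 1).sum = ((mk t y').map fun q => q.lv.length - 1).sum := by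
  rw [map_mk, map_mk]
  simp only [real_lv hE0]

theorem mu_congr (hE0 : S_E0) {m : ℕ} (t : Fin m → SP N k) (y y' : Fin m → Dat N k) :
    mu (mk t y) = mu (mk t y') := by
  unfold mu
  rw [map_mk, map_mk]
  simp only [real_lv hE0]
  rfl

theorem compactC (hE0 : S_E0) (hE5 : S_E5) (hE6 : S_E6) {m : ℕ} (Cl : Finset ℕ) (P : ℝ)
    (t : Fin m → SP N k) :
    IsCompact {y : Fin m → Dat N k | (∀ j, y j ∈ Box N k P) ∧ InD Cl P (mk t y)} := by
  obtain ⟨hcl, hbox⟩ := hE5 N k Cl P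
  have hK : IsCompact (Set.univ.pi fun _ : Fin m => Box N k P) := isCompact_univ_pi fun _ => hbox
  refine hK.of_isClosed_subset ?_ (fun y hy j _ => hy.1 j)
  apply IsSeqClosed.isClosed
  intro y y₀ hy hlim
  have hlimj : ∀ j, Tendsto (fun n => y n j) atTop (𝓝 (y₀ j)) := fun j =>
    (tendsto_pi_nhds.1 hlim) j
  have hok : ∀ n j, ((t j).real (y n j)).ok Cl P := fun n j =>
    (hy n).2.ok _ ((List.mem_ofFn' _ _).2 ⟨j, rfl⟩)
  have hok₀ : ∀ j, ((t j).real (y₀ j)).ok Cl P := fun j =>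
    (hcl (t j)).mem_of_tendsto (hlimj j) (Eventually.of_forall fun n => hok n j)
  refine ⟨fun j => hbox.isClosed.mem_of_tendsto (hlimj j)
    (Eventually.of_forall fun n => (hy n).1 j), ?_, ?_, ?_, ?_⟩
  · intro q hq
    obtain ⟨j, rfl⟩ := (List.mem_ofFn' _ _).1 hq
    exact hok₀ j
  · intro a ha b hb
    exact hj_congr hE0 t (y 0) y₀ a b ((hy 0).2.conn a ha b hb)
  · rw [cnt_congr hE0 t y₀ (y 0)]
    exact (hy 0).2.cnt
  · exact hE6 N k m Cl P t y y₀ hlim hok hok₀ fun n => (hy n).2.mst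

theorem contSum {m : ℕ} (t : Fin m → SP N k) (f : Piece N → ℝ) (A : Set (Fin m → Dat N k))
    (B : Fin m → Set (Dat N k)) (hA : ∀ y ∈ A, ∀ j, y j ∈ B j)
    (hf : ∀ j, ContinuousOn (fun y : Dat N k => f ((t j).real y)) (B j)) :
    ContinuousOn (fun y => ((mk t y).map f).sum) A := by
  have h1 : (fun y : Fin m → Dat N k => ((mk t y).map f).sum) =
      fun y => ∑ j, f ((t j).real (y j)) := by
    funext y
    rw [map_mk, List.sum_ofFn]
  rw [h1]
  refine continuousOn_finsetSum _ fun j _ => ?_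
  exact (hf j).comp (continuous_apply j).continuousOn fun y hy => hA y hy j

end ECmp

open ECmp in
theorem t_comp (hE0 : S_E0) (hE1 : S_E1) (hE2 : S_E2) (hE3 : S_E3) (hE4 : S_E4) (hE5 : S_E5)
    (hE6 : S_E6) (hE7 : S_E7) (hE8 : S_E8) (hE9 : S_E9) : S_comp := by
  intro N Cl P R1 S₀ hS₀
  have hG : (Gd N Cl.card Cl.card Cl).Finite := hE2 N Cl.card Cl.card Cl
  have hGf : Finite (Gd N Cl.card Cl.card Cl) := hG.to_subtype
  let ι : Type := Σ m : Fin (Cl.card + 1), (Fin m → Gd N Cl.card Cl.card Cl)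
  have hι : Finite ι := inferInstance
  let Y : ι → Type := fun i => Fin i.1 → Dat N Cl.card
  let t : ∀ i : ι, Fin i.1 → SP N Cl.card := fun i j => (i.2 j).1
  let C : ∀ i, Set (Y i) := fun i =>
    {y | (∀ j, y j ∈ Box N Cl.card P) ∧ InD Cl P (mk (t i) y)}
  -- normal form
  have hnf : ∀ S : Cfg N, InD Cl P S → ∃ i, ∃ y ∈ C i, Lc (mk (t i) y) = Lc S ∧
      mu (mk (t i) y) = mu S ∧ Phi R1 (mk (t i) y) = Phi R1 S ∧ Ic (mk (t i) y) = Ic S ∧
      Qc (mk (t i) y) = Qc S := by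
    intro S hS
    obtain ⟨S', hS'⟩ := forall₂_of (fun q q' : Piece N => (q'.D = q.D ∧ q'.lab = q.lab ∧
      q'.T = q.T ∧ q'.ok Cl P ∧
      (∀ x y, q'.d x y = q.d x y) ∧ q'.L = q.L ∧ q'.Phi R1 = q.Phi R1 ∧
      q'.D.I (fun v => q'.p v - q'.p q'.root) = q.D.I (fun v => q.p v - q.p q.root) ∧
      q'.D.Q q'.p = q.D.Q q.p) ∧ ∀ v, ‖q'.p v‖ ≤ P) S (by
        intro q hq
        obtain ⟨p', h1, h2, h3, h4, h5, h6, h7⟩ := hE4 N Cl P R1 q (hS.ok q hq)
        exact ⟨⟨q.D, p', q.lab, q.T⟩, ⟨rfl, rfl, rfl, h2, h3, h4, h5, h6, h7⟩, h1⟩)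
    obtain ⟨hIn, e1, e2, e3, e4, e5⟩ := hE9 N Cl P R1 S S' (hS'.imp fun _ _ h => h.1) hS
    have hb : ∀ q ∈ S', ∀ v, ‖q.p v‖ ≤ P := by
      intro q hq
      obtain ⟨q₀, -, h⟩ := forall₂_mem _ _ _ hS' q hq
      exact h.2
    have hcnt := hIn.cnt
    have hlen : S'.length ≤ Cl.card := by
      have := length_le_sum S' (fun q => q.lv.length - 1) (fun q _ => by
        have := lv_len hE0 q
        omega)
      omega
    have hlv : ∀ q ∈ S', q.lv.length ≤ Cl.card := by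
      intro q hq
      have h1 : q.lv.length - 1 ≤ (S'.map fun q => q.lv.length - 1).sum :=
        le_sum_of_mem S' (fun q => q.lv.length - 1) q hq
      have h2 := lv_len hE0 q
      omega
    have hty : ∀ j : Fin S'.length, ∃ (t : Gd N Cl.card Cl.card Cl) (y : Dat N Cl.card),
        y ∈ Box N Cl.card P ∧ t.1.real y = S'.get j := fun j =>
      exists_type hE0 hE3 Cl P (S'.get j) (hIn.ok _ (S'.get_mem j)) (hb _ (S'.get_mem j))
        (hlv _ (S'.get_mem j))
    choose τ y hy hτ using hty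
    have hmk : mk (fun j => (τ j).1) y = S' := by
      unfold mk
      simp only [hτ]
      exact List.ofFn_get S'
    refine ⟨⟨⟨S'.length, by omega⟩, τ⟩, y, ⟨hy, ?_⟩, ?_⟩
    · show InD Cl P (mk (fun j => (τ j).1) y)
      rw [hmk]
      exact hIn
    · show Lc (mk (fun j => (τ j).1) y) = _ ∧ mu (mk (fun j => (τ j).1) y) = _ ∧
        Phi R1 (mk (fun j => (τ j).1) y) = _ ∧ Ic (mk (fun j => (τ j).1) y) = _ ∧
        Qc (mk (fun j => (τ j).1) y) = _
      rw [hmk]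
      exact ⟨e1, e2, e3, e4, e5⟩
  have hokm : ∀ i, ∀ y ∈ C i, ∀ j, ((t i j).real (y j)).ok Cl P := fun i y hy j =>
    hy.2.ok _ ((List.mem_ofFn' _ _).2 ⟨j, rfl⟩)
  have hne : ∃ i, (C i).Nonempty := by
    obtain ⟨i, y, hy, -⟩ := hnf S₀ hS₀
    exact ⟨i, y, hy⟩
  obtain ⟨i, y, hy, o1, o2, o3, o4, o5⟩ := hE1 ι Y C (fun i y => Lc (mk (t i) y))
    (fun i y => Phi R1 (mk (t i) y)) (fun i y => Ic (mk (t i) y)) (fun i y => Qc (mk (t i) y))
    (fun i => mu (mk (t i) fun _ => ((fun _ => 0), fun _ => 0)))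
    (fun i => compactC hE0 hE5 hE6 Cl P (t i))
    (fun i => contSum (t i) Piece.L (C i) (fun j => {y | ((t i j).real y).ok Cl P})
      (fun y hy j => hokm i y hy j) fun j => hE7 N Cl.card Cl P (t i j))
    (fun i => contSum (t i) (Piece.Phi R1) (C i) (fun _ => Set.univ) (fun _ _ _ => trivial)
      fun j => (hE8 N Cl.card R1 (t i j)).1.continuousOn)
    (fun i => contSum (t i) (fun q => q.D.I (fun v => q.p v - q.p q.root)) (C i)
      (fun _ => Set.univ) (fun _ _ _ => trivial)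
      fun j => (hE8 N Cl.card R1 (t i j)).2.1.continuousOn)
    (fun i => contSum (t i) (fun q => q.D.Q q.p) (C i) (fun _ => Set.univ)
      (fun _ _ _ => trivial) fun j => (hE8 N Cl.card R1 (t i j)).2.2.continuousOn)
    hne
  have hmu : ∀ i, ∀ y : Y i, mu (mk (t i) fun _ => ((fun _ => 0), fun _ => 0)) =
      mu (mk (t i) y) := fun i y => mu_congr hE0 (t i) _ _
  refine ⟨mk (t i) y, hy.2, ?_, ?_, ?_, ?_, ?_⟩
  · intro S' h
    obtain ⟨i', y', hy', e1, -⟩ := hnf S' h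
    rw [← e1]
    exact o1 i' y' hy'
  · intro S' h h1
    obtain ⟨i', y', hy', e1, e2, -⟩ := hnf S' h
    rw [← e1] at h1
    rw [← e2]
    have := o2 i' y' hy' h1
    rw [hmu i y, hmu i' y'] at this
    exact this
  · intro S' h h1 h2
    obtain ⟨i', y', hy', e1, e2, e3, -⟩ := hnf S' h
    rw [← e1] at h1
    rw [← e2] at h2
    rw [← e3]
    refine o3 i' y' hy' h1 ?_
    show mu (mk (t i') fun _ => ((fun _ => 0), fun _ => 0)) ≤
      mu (mk (t i) fun _ => ((fun _ => 0), fun _ => 0))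
    rw [hmu i y, hmu i' y']
    exact h2
  · intro S' h h1 h2 h3
    obtain ⟨i', y', hy', e1, e2, e3, e4, -⟩ := hnf S' h
    rw [← e1] at h1
    rw [← e2] at h2
    rw [← e3] at h3
    rw [← e4]
    refine o4 i' y' hy' h1 ?_ h3
    show mu (mk (t i') fun _ => ((fun _ => 0), fun _ => 0)) ≤
      mu (mk (t i) fun _ => ((fun _ => 0), fun _ => 0))
    rw [hmu i y, hmu i' y']
    exact h2
  · intro S' h h1 h2 h3 h4
    obtain ⟨i', y', hy', e1, e2, e3, e4, e5⟩ := hnf S' h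
    rw [← e1] at h1
    rw [← e2] at h2
    rw [← e3] at h3
    rw [← e4] at h4
    rw [← e5]
    refine o5 i' y' hy' h1 ?_ h3 h4
    show mu (mk (t i') fun _ => ((fun _ => 0), fun _ => 0)) ≤
      mu (mk (t i) fun _ => ((fun _ => 0), fun _ => 0))
    rw [hmu i y, hmu i' y']
    exact h2

end Pool.Agent.Lib.MP_9f84a9_co
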