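import Pool.Agent.Lib.MP_9f84a9_co.P.A1
import Pool.Agent.Lib.MP_9f84a9_co.P.A2
import Pool.Agent.Lib.MP_9f84a9_co.P.A4
import Pool.Agent.Lib.MP_9f84a9_co.P.A5
import Pool.Agent.Lib.MP_9f84a9_co.P.A7
import Pool.Agent.Lib.MP_9f84a9_co.P.B4
import Pool.Agent.Lib.MP_9f84a9_co.P.B5
import Pool.Agent.Lib.MP_9f84a9_co.P.X2
import Pool.Agent.Lib.MP_9f84a9_co.E.E0
import Pool.Agent.Lib.MP_9f84a9_co.E.E1
import Pool.Agent.Lib.MP_9f84a9_co.E.E2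
import Pool.Agent.Lib.MP_9f84a9_co.E.E3
import Pool.Agent.Lib.MP_9f84a9_co.E.E4
import Pool.Agent.Lib.MP_9f84a9_co.E.E5
import Pool.Agent.Lib.MP_9f84a9_co.E.E6
import Pool.Agent.Lib.MP_9f84a9_co.E.E7b
import Pool.Agent.Lib.MP_9f84a9_co.E.E8b
import Pool.Agent.Lib.MP_9f84a9_co.E.E9b
import Pool.Agent.Lib.MP_9f84a9_co.E.comp

/-!
# MP_9f84a9_co, module E: the output `S_comp` of section 2, without hypotheses
-/

set_option autoImplicit false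

namespace Pool.Agent.Lib.MP_9f84a9_co

/-- `S_comp` (section 2) -/
theorem out_comp : S_comp := by
  have hA5 : S_A5 := t_A5 t_A1 t_A4
  have hA7 : S_A7 := t_A7 t_A1 t_A2 hA5
  exact t_comp t_E0 t_E1 t_E2 (t_E3 t_E0) (t_E4 t_A1 t_B4 t_E0) (t_E5 t_E0)
    (t_E6 t_A1 hA7 t_B4 t_B5) (t_E7 t_A1 hA7 t_B4 t_B5 t_X2) t_E8 t_E9

end Pool.Agent.Lib.MP_9f84a9_co
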