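import Pool.Agent.Lib.MP_9f84a9_co.E.DefsE
import Pool.Agent.Lib.MP_9f84a9_co.StmA
import Pool.Agent.Lib.MP_9f84a9_co.StmB

/-!
# MP_9f84a9_co, section 2 (module E): statements with complete proofs in the docstrings
-/

set_option autoImplicit false

namespace Pool.Agent.Lib.MP_9f84a9_co

open Finset Filter Topology

/-! ## Part 1: normal form -/

/-- [E1] Finitely many types.
PROOF. `{P : PT N | P.vs.length ≤ l}` is finite by induction on `l` (`vs` of a `node` has length `1 + ..`; the image of the finite set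
`Fin N × A × A` under `node`, plus `nil`), so the set of `D : Dsc N` with `D.ok` is finite (`D.vl.Nodup` gives `D.vl.length ≤ N`).
`{T : SNet N k | T.leaves.length ≤ l}` is finite by induction on `l` (`leaves` has length `≥ 1`, so both branches of a `node` have fewer leaves).
The labellings `lab : Fin N → ℕ` with values in `Cl` form a finite set (`Set.Finite.pi`). The set `TT` is contained in the image of the product. -/
def S_E1 : Prop := ∀ (N : ℕ) (Cl : Finset ℕ), (TT N Cl).Finite

/-- [E2] Naming the nodes.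
PROOF. (1) By induction on `T` (for all `i₀`): for a node use the name `i₀` for the top, `i₀ + 1 ..` for the left branch, `i₀ + 1 + l.nodes.length ..` for the
right branch; `List.getElem_cons`, `List.getElem_append`. (2) Both trees with `i₀ = 0` and `i₀ = T.1.nodes.length`; `z i = (T.1.nodes ++ T.2.nodes)[i]` if `i` is smaller than the length, else `0`.
The number of nodes of a tree is the number of leaves minus one. -/
def S_E2 : Prop :=
  (∀ (N k : ℕ) (T : Net N) (i₀ : ℕ), i₀ + T.nodes.length ≤ k →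
    ∃ s : SNet N k, s.leaves = T.leaves ∧ ∀ z : Fin k → Pt N,
      (∀ (j : ℕ) (h : j < T.nodes.length) (h' : i₀ + j < k), z ⟨i₀ + j, h'⟩ = T.nodes[j]) →
        s.real z = T) ∧
  (∀ (N k : ℕ) (T : Net N × Net N), T.1.leaves.length + T.2.leaves.length ≤ k + 2 →
    ∃ (s : SNet N k × SNet N k) (z : Fin k → Pt N), s.1.leaves = T.1.leaves ∧
      s.2.leaves = T.2.leaves ∧ (s.1.real z, s.2.real z) = T ∧
      ∀ i, z i = 0 ∨ z i ∈ T.1.nodes ++ T.2.nodes)

/-- [E3] Translation and locality of the functionals of a disc.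
PROOF. Induction on `PT` for all base edges `(a,b)` with `a, b` in the set where `p' = p - c`: `ar` and `dist` are translation invariant. The hypothesis is for the vertices of `vl`.
For `I` we assume `p' = p` on the vertices. -/
def S_E3 : Prop :=
  ∀ (N : ℕ) (D : Dsc N) (p p' : Fin N → E) (c : E), (∀ v ∈ D.vl, p' v = p v - c) →
    (D.WPos p → D.WPos p') ∧ D.Q p' = D.Q p ∧ (c = 0 → D.I p' = D.I p)

/-- [E4] Translation and locality of the chain metric. (Uses `S_B4`.)
PROOF. For `x ∈ K` all `v` with `x v ≠ 0` are in `vl` and `∑ x v = 1`, so `pos p' x = pos p x - c`. So `ce p' x y = ce p x y` for `x, y ∈ K`; every path for one cost is a path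
for the other one (induction), so the sets in `dK` are the same. -/
def S_E4 : Prop :=
  ∀ (N : ℕ) (D : Dsc N) (p p' : Fin N → E) (c : E), D.ok → (∀ v ∈ D.vl, p' v = p v - c) →
    (∀ x, In D.K x → pos p' x = pos p x - c) ∧
    ∀ x y, In D.K x → dK D.K (ce p') x y = dK D.K (ce p) x y

/-- [E5] Normal form of a piece. (Uses `S_E2`, `S_E3`, `S_E4`, `S_B4`, `S_A1`.)
PROOF. `q' = ⟨q.D, p', q.lab, q.T⟩` with `p' v = q.p v - q.p q.root` for `v ∈ vl` and `0` otherwise; `root ∈ lv ⊆ vl`; `‖p' v‖ ≤ P` by `diam` (and `0 ≤ P` as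
`dist (p root) (p root) = 0 ≤ P`). All points occurring are in `K` (`vx v` for `v ∈ vl`: B4 and A1 (5)). Then E2 for `q.T` (nodes are in `K`, so the coordinates are in `[0,1]`).
`L`: the length of the network is a sum of distances of points of `K`; `Phi`: distances to the root. `I`: `p' v - p' root = p v - p root`. -/
def S_E5 : Prop :=
  ∀ (N : ℕ) (Cl : Finset ℕ) (P R1 : ℝ) (q : Piece N), q.ok Cl P → q.lv.length ≤ Cl.card →
    ∃ t ∈ TT N Cl, ∃ y ∈ Box N Cl.card P, (t.real y).ok Cl P ∧ (t.real y).L = q.L ∧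
      (t.real y).lv = q.lv ∧ (t.real y).lab = q.lab ∧ (t.real y).D = q.D ∧
      (t.real y).Phi R1 = q.Phi R1 ∧
      (t.real y).D.I (fun v => (t.real y).p v - (t.real y).p (t.real y).root) =
        q.D.I (fun v => q.p v - q.p q.root) ∧
      (t.real y).D.Q (t.real y).p = q.D.Q q.p ∧
      ∀ v ∈ q.D.vl, ∀ w ∈ q.D.vl, (t.real y).d (vx v) (vx w) = q.d (vx v) (vx w)

/-- [E6] Normal form of a configuration. (Uses `S_E5`.)
PROOF. `m = S.length`, `S = List.ofFn S.get`; `lv.length ≥ 2`, so `m ≤ ∑ (lv.length - 1) < Cl.card` and `lv.length ≤ Cl.card` for all pieces. Choose `t j, y j` from E5. `InD`: `HJ` only depends on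
`lv` and `lab`, `Ch` only on `D`, `lab` and the distances of vertices. -/
def S_E6 : Prop :=
  ∀ (N : ℕ) (Cl : Finset ℕ) (P R1 : ℝ) (S : Cfg N), InD Cl P S →
    ∃ (m : ℕ) (t : Fin m → SP N Cl.card) (y : Fin m → Dat N Cl.card), m ≤ Cl.card ∧
      (∀ j, t j ∈ TT N Cl) ∧ y ∈ YY Cl P t ∧ SameVal R1 (mk t y) S

/-! ## Part 2: topology -/

/-- [E7] Continuity. (Uses `S_A7`, `S_B5`, `S_A1`, `S_B4`.)
PROOF. `L` is a finite sum of distances of points of `K` which depend continuously on `y` (on `YY` the nodes are in `K`); A7. The others are given by explicit formulas. -/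
def S_E7 : Prop :=
  ∀ (N k m : ℕ) (Cl : Finset ℕ) (P R1 : ℝ) (t : Fin m → SP N k), (∀ j, (t j).D.ok) →
    ContinuousOn (fun y => Lc (mk t y)) (YY Cl P t) ∧ Continuous (fun y => Phi R1 (mk t y)) ∧
    Continuous (fun y => Ic (mk t y)) ∧ Continuous (fun y => Qc (mk t y))

/-- [E8] Compactness. (Uses `S_A7`, `S_B5`, `S_A1`, `S_B4`.)
PROOF. `Box` is compact. `ok` is closed: `wpos`, `diam` by continuity; `nods`: `{x | In K x}` is closed. `MSTge`: let `y i → y`; given `l` for `y`, `ε > 0`, the list with all `r` enlarged by `ε` is a list of chords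
for `y i` for large `i` by A7, so `1 ≤ ∑ r + ε * length`; `ε → 0`. `conn` and `cnt` do not depend on `y`. -/
def S_E8 : Prop :=
  ∀ (N k m : ℕ) (Cl : Finset ℕ) (P : ℝ) (t : Fin m → SP N k), (∀ j, (t j).D.ok) →
    IsCompact (YY Cl P t)

/-- [E9] One minimisation step over a finite family of compact sets.
PROOF. `IsCompact.exists_isMinOn` for the nonempty ones, then the minimum of finitely many numbers (`Finite.exists_min` or `Set.exists_min_image` over the finite set of indices). The sublevel set is closed in the compact set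
(`ContinuousOn.preimage_isClosed_of_isClosed`). -/
def S_E9 : Prop :=
  ∀ (ι : Type) [Finite ι] (Y : ι → Type) [∀ i, TopologicalSpace (Y i)] [∀ i, T2Space (Y i)]
    (C : ∀ i, Set (Y i)) (f : ∀ i, Y i → ℝ), (∀ i, IsCompact (C i)) →
    (∀ i, ContinuousOn (f i) (C i)) → (∃ i, (C i).Nonempty) →
    ∃ c : ℝ, (∀ i, ∀ y ∈ C i, c ≤ f i y) ∧ (∃ i, (C i ∩ {y | f i y ≤ c}).Nonempty) ∧
      ∀ i, IsCompact (C i ∩ {y | f i y ≤ c})

end Pool.Agent.Lib.MP_9f84a9_co
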